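import Mathlib
import Pool.Agent.H358R5.Stubs4

/-! The cells with few small coordinates carry little mass (Chernoff bound with integer arithmetic). -/

set_option autoImplicit false

open Finset

namespace Pool.Agent.J6H58.D3

open Pool.Agent.H358R5

/-- total size of the coordinates of size at most `y` -/
def SN {K : ℕ} (y : ℕ) (c : Fin K → ℕ) : ℕ := ∑ j, if c j + 1 ≤ y then c j + 1 else 0

/-- the integer weight of the Chernoff bound, `2 ^ b * ((D - 1) / D) ^ k` rounded up -/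
def wz (y D b k : ℕ) : ℕ := if k ≤ y then ((D - 1) ^ k * 2 ^ b) / D ^ k + 1 else 2 ^ b + 1

/-- upper bound for `∑ G(k)^2 wz(k)` over a tree -/
def ws (y D b : ℕ) : BT → ℕ → ℕ
  | .leaf l v, s0 => v ^ 2 * l * (if s0 + l ≤ y then wz y D b (s0 + 1) else 2 ^ b + 1)
  | .node a c, s0 => ws y D b a s0 + ws y D b c (s0 + a.len)

/-- the real weight -/
noncomputable def wr (y D b k : ℕ) : ℝ := 2 ^ b * (((D : ℝ) - 1) / D) ^ (if k ≤ y then k else 0)

theorem wr_le (y D b k : ℕ) (hD : 1 ≤ D) : wr y D b k ≤ (wz y D b k : ℝ) := by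
  have hD' : (0 : ℝ) < D := by exact_mod_cast hD
  have hD1 : ((D - 1 : ℕ) : ℝ) = (D : ℝ) - 1 := by push_cast [hD]; ring
  unfold wr wz
  split_ifs with h
  · have h1 : ((((D - 1) ^ k * 2 ^ b : ℕ) : ℝ)) / ((D ^ k : ℕ) : ℝ) ≤
        ((((D - 1) ^ k * 2 ^ b) / D ^ k + 1 : ℕ) : ℝ) := by
      have h2 : ((D ^ k : ℕ) : ℝ) > 0 := by
        have : 0 < D ^ k := pow_pos (by omega) k
        exact_mod_cast this
      rw [div_le_iff₀ h2]
      have h3 : (D - 1) ^ k * 2 ^ b ≤ (((D - 1) ^ k * 2 ^ b) / D ^ k + 1) * D ^ k := by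
        have h4 := Nat.lt_div_mul_add (a := (D - 1) ^ k * 2 ^ b) (b := D ^ k) (pow_pos (by omega) k)
        rw [add_mul, one_mul]
        exact h4.le
      exact_mod_cast h3
    refine le_trans (le_of_eq ?_) h1
    push_cast
    rw [hD1, div_pow]
    ring
  · push_cast
    rw [pow_zero]
    linarith

theorem wz_anti (y D b k k' : ℕ) (hD : 1 ≤ D) (h : k ≤ k') (hk' : k' ≤ y) : wz y D b k' ≤ wz y D b k := by
  unfold wz
  rw [if_pos hk', if_pos (h.trans hk')]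
  gcongr ?_ + 1
  obtain ⟨d, rfl⟩ := Nat.exists_eq_add_of_le h
  have hp : 0 < D ^ k := pow_pos (by omega) k
  have hpd : 0 < D ^ d := pow_pos (by omega) d
  have h1 : (D - 1) ^ (k + d) * 2 ^ b ≤ ((D - 1) ^ k * 2 ^ b) * D ^ d := by
    rw [pow_add]
    have h2 : (D - 1) ^ d ≤ D ^ d := Nat.pow_le_pow_left (by omega) d
    calc (D - 1) ^ k * (D - 1) ^ d * 2 ^ b = ((D - 1) ^ k * 2 ^ b) * (D - 1) ^ d := by ring
      _ ≤ _ := Nat.mul_le_mul_left _ h2
  calc (D - 1) ^ (k + d) * 2 ^ b / D ^ (k + d) ≤ (((D - 1) ^ k * 2 ^ b) * D ^ d) / D ^ (k + d) :=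
        Nat.div_le_div_right h1
    _ = (D - 1) ^ k * 2 ^ b / D ^ k := by
        rw [pow_add, Nat.mul_div_mul_right _ _ hpd]

theorem wz_le (y D b k : ℕ) (hD : 1 ≤ D) : wz y D b k ≤ 2 ^ b + 1 := by
  unfold wz
  split_ifs with h
  · gcongr ?_ + 1
    have hp : 0 < D ^ k := pow_pos (by omega) k
    rw [Nat.div_le_iff_le_mul_add_pred hp]
    have h2 : (D - 1) ^ k ≤ D ^ k := Nat.pow_le_pow_left (by omega) k
    calc (D - 1) ^ k * 2 ^ b ≤ D ^ k * 2 ^ b := Nat.mul_le_mul_right _ h2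
      _ ≤ D ^ k * 2 ^ b + (D ^ k - 1) := Nat.le_add_right _ _
  · exact le_rfl

theorem ws_bound (y D b : ℕ) (hD : 1 ≤ D) : ∀ (t : BT) (s0 : ℕ),
    ∑ k ∈ range t.len, t.val k ^ 2 * wz y D b (s0 + k + 1) ≤ ws y D b t s0 := by
  intro t
  induction t with
  | leaf l v =>
    intro s0
    have h1 : ∀ k ∈ range l, BT.val (.leaf l v) k ^ 2 * wz y D b (s0 + k + 1) ≤
        v ^ 2 * (if s0 + l ≤ y then wz y D b (s0 + 1) else 2 ^ b + 1) := by
      intro k hk
      rw [mem_range] at hk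
      simp only [BT.val, if_pos hk]
      apply Nat.mul_le_mul_left
      split_ifs with h
      · exact wz_anti y D b _ _ hD (by omega) (by omega)
      · exact wz_le y D b _ hD
    calc ∑ k ∈ range l, BT.val (.leaf l v) k ^ 2 * wz y D b (s0 + k + 1)
        ≤ ∑ k ∈ range l, v ^ 2 * (if s0 + l ≤ y then wz y D b (s0 + 1) else 2 ^ b + 1) := sum_le_sum h1
      _ = _ := by
        rw [sum_const, card_range, smul_eq_mul]
        simp only [ws]
        ring
  | node a c iha ihc =>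
    intro s0
    have h1 : ∑ k ∈ range (BT.len (.node a c)), BT.val (.node a c) k ^ 2 * wz y D b (s0 + k + 1) =
        ∑ k ∈ range a.len, a.val k ^ 2 * wz y D b (s0 + k + 1) +
        ∑ k ∈ range c.len, c.val k ^ 2 * wz y D b (s0 + a.len + k + 1) := by
      rw [BT.len, sum_range_add]
      congr 1
      · refine sum_congr rfl fun k hk => ?_
        rw [mem_range] at hk
        simp only [BT.val, if_pos hk]
      · refine sum_congr rfl fun k hk => ?_
        simp only [BT.val]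
        rw [if_neg (by omega), show a.len + k - a.len = k by omega, show s0 + (a.len + k) + 1 = s0 + a.len + k + 1 by ring]
    rw [h1]
    simp only [ws]
    exact Nat.add_le_add (iha s0) (ihc _)

/-- the Chernoff bound for the cells with few small coordinates -/
theorem chern (G : ℕ → ℕ) (K0 N y Y' D b WS HM : ℕ) (hD : 2 ≤ D)
    (hWS : ∑ k ∈ range N, G (k + 1) ^ 2 * wz y D b (k + 1) ≤ WS) (H : (Fin K0 → ℕ) → ℝ)
    (hH : ∀ c, H c ^ 2 ≤ (HM : ℝ) ^ 2) :
    ((D - 1 : ℕ) : ℝ) ^ Y' * 2 ^ (b * K0) *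
      ∑ c ∈ (Fintype.piFinset (fun _ : Fin K0 => range N)).filter (fun c => SN y c < Y'),
        ((∏ j, (G (c j + 1) : ℝ)) * H c) ^ 2 ≤ (D : ℝ) ^ Y' * (WS : ℝ) ^ K0 * (HM : ℝ) ^ 2 := by
  have hD0 : (0 : ℝ) < D := by
    have : 0 < D := by omega
    exact_mod_cast this
  have hD1 : ((D - 1 : ℕ) : ℝ) = (D : ℝ) - 1 := by push_cast [show 1 ≤ D by omega]; ring
  have hD2 : (1 : ℝ) ≤ (D : ℝ) - 1 := by
    have : (2 : ℝ) ≤ D := by exact_mod_cast hD
    linarith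
  have hr0 : 0 < ((D : ℝ) - 1) / D := by positivity
  have hr1 : ((D : ℝ) - 1) / D ≤ 1 := by
    rw [div_le_one hD0]
    linarith
  -- the pointwise bound
  have hpt : ∀ c : Fin K0 → ℕ, SN y c < Y' → ((D : ℝ) - 1) ^ Y' * 2 ^ (b * K0) ≤
      (D : ℝ) ^ Y' * ∏ j, wr y D b (c j + 1) := by
    intro c hc
    have h1 : ∏ j, wr y D b (c j + 1) = 2 ^ (b * K0) * (((D : ℝ) - 1) / D) ^ SN y c := by
      unfold wr SN
      rw [prod_mul_distrib, prod_const, card_univ, Fintype.card_fin, ← pow_mul, prod_pow_eq_pow_sum]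
    rw [h1]
    have h2 : (((D : ℝ) - 1) / D) ^ Y' ≤ (((D : ℝ) - 1) / D) ^ SN y c :=
      pow_le_pow_of_le_one hr0.le hr1 hc.le
    rw [div_pow, div_le_iff₀ (by positivity)] at h2
    calc ((D : ℝ) - 1) ^ Y' * 2 ^ (b * K0) ≤ ((((D : ℝ) - 1) / D) ^ SN y c * D ^ Y') * 2 ^ (b * K0) :=
          mul_le_mul_of_nonneg_right h2 (by positivity)
      _ = _ := by ring
  rw [hD1, mul_sum]
  calc ∑ c ∈ (Fintype.piFinset (fun _ : Fin K0 => range N)).filter (fun c => SN y c < Y'),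
        ((D : ℝ) - 1) ^ Y' * 2 ^ (b * K0) * ((∏ j, (G (c j + 1) : ℝ)) * H c) ^ 2
      ≤ ∑ c ∈ (Fintype.piFinset (fun _ : Fin K0 => range N)).filter (fun c => SN y c < Y'),
        (D : ℝ) ^ Y' * (HM : ℝ) ^ 2 * ∏ j, ((G (c j + 1) : ℝ) ^ 2 * (wz y D b (c j + 1) : ℝ)) := by
        refine sum_le_sum fun c hc => ?_
        rw [mem_filter] at hc
        have h1 := hpt c hc.2
        have h2 : ∏ j, wr y D b (c j + 1) ≤ ∏ j, (wz y D b (c j + 1) : ℝ) :=
          prod_le_prod (fun j _ => by unfold wr; positivity) fun j _ => wr_le y D b _ (by omega)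
        have h3 : ((D : ℝ) - 1) ^ Y' * 2 ^ (b * K0) ≤ (D : ℝ) ^ Y' * ∏ j, (wz y D b (c j + 1) : ℝ) :=
          h1.trans (mul_le_mul_of_nonneg_left h2 (by positivity))
        have h4 : ((∏ j, (G (c j + 1) : ℝ)) * H c) ^ 2 ≤ (∏ j, (G (c j + 1) : ℝ)) ^ 2 * (HM : ℝ) ^ 2 := by
          rw [mul_pow]
          exact mul_le_mul_of_nonneg_left (hH c) (by positivity)
        calc ((D : ℝ) - 1) ^ Y' * 2 ^ (b * K0) * ((∏ j, (G (c j + 1) : ℝ)) * H c) ^ 2
            ≤ ((D : ℝ) ^ Y' * ∏ j, (wz y D b (c j + 1) : ℝ)) * ((∏ j, (G (c j + 1) : ℝ)) ^ 2 * (HM : ℝ) ^ 2) :=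
              mul_le_mul h3 h4 (by positivity) (by positivity)
          _ = _ := by
              rw [prod_mul_distrib, prod_pow]
              ring
    _ ≤ ∑ c ∈ Fintype.piFinset (fun _ : Fin K0 => range N),
        (D : ℝ) ^ Y' * (HM : ℝ) ^ 2 * ∏ j, ((G (c j + 1) : ℝ) ^ 2 * (wz y D b (c j + 1) : ℝ)) :=
        sum_le_sum_of_subset_of_nonneg (filter_subset _ _) fun c _ _ => by positivity
    _ = (D : ℝ) ^ Y' * (HM : ℝ) ^ 2 * (∑ k ∈ range N, (G (k + 1) : ℝ) ^ 2 * (wz y D b (k + 1) : ℝ)) ^ K0 := by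
        rw [← mul_sum]
        congr 1
        have h5 := Finset.prod_univ_sum (fun _ : Fin K0 => range N)
          (fun _ k => (G (k + 1) : ℝ) ^ 2 * (wz y D b (k + 1) : ℝ))
        rw [prod_const, card_univ, Fintype.card_fin] at h5
        rw [h5]
    _ ≤ (D : ℝ) ^ Y' * (HM : ℝ) ^ 2 * (WS : ℝ) ^ K0 := by
        have h6 : ∑ k ∈ range N, (G (k + 1) : ℝ) ^ 2 * (wz y D b (k + 1) : ℝ) ≤ (WS : ℝ) := by exact_mod_cast hWS
        gcongr
    _ = _ := by ring

end Pool.Agent.J6H58.D3
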