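import Mathlib
import Pool.Agent.H358R5.Stubs4
import Pool.Agent.H358R5.SEG
import Pool.Agent.H358R5.MULS
import Pool.Agent.H358R5.REP
import Pool.Agent.H358R5.INIT

/-! Packed sequences: values of trees, reversal, slotwise comparison, weighted segment sums. -/

set_option autoImplicit false

open Finset

namespace Pool.Agent.J6H58.D3

open Pool.Agent.H358R5

/-- the packed sequence of values -/
def pkv (w : ℕ) : BT → ℕ
  | .leaf l v => v * rep w l
  | .node a b => pkv w a + (pkv w b) <<< (w * a.len)

/-- the reversed tree -/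
def rev : BT → BT
  | .leaf l v => .leaf l v
  | .node a b => .node (rev b) (rev a)

/-- the largest value -/
def mxv : BT → ℕ
  | .leaf _ v => v
  | .node a b => max (mxv a) (mxv b)

/-- `∑ (a s + E) v_s ^ 2` from the packed sequence `a` -/
def ev (w E : ℕ) : BT → ℕ → ℕ
  | .leaf l v, X => (X % ((1 <<< w) - 1) + E * l) * v ^ 2
  | .node a b, X => ev w E a (X % (1 <<< (w * a.len))) + ev w E b (X >>> (w * a.len))

/-- slotwise comparison of two packed sequences -/
def slotle (w n A B : ℕ) : Bool :=
  Nat.beq (((A + (1 <<< (w - 1)) * rep w n - B) >>> (w - 1)) &&& rep w n) (rep w n)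

theorem val_node_lt (a b : BT) (i : ℕ) (h : i < a.len) : (BT.node a b).val i = a.val i := by
  simp only [BT.val]
  rw [if_pos h]

theorem val_node_ge (a b : BT) (i : ℕ) (h : a.len ≤ i) : (BT.node a b).val i = b.val (i - a.len) := by
  simp only [BT.val]
  rw [if_neg (by omega)]

theorem val_out (t : BT) : ∀ i, t.len ≤ i → t.val i = 0 := by
  induction t with
  | leaf l v =>
    intro i h
    simp only [BT.val, BT.len] at *
    rw [if_neg (by omega)]
  | node a b iha ihb =>
    intro i h
    simp only [BT.len] at h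
    rw [val_node_ge a b i (by omega)]
    exact ihb _ (by omega)

theorem pkv_eq (w : ℕ) (hw : 0 < w) (t : BT) : pkv w t = pk w t.val t.len := by
  induction t with
  | leaf l v =>
    unfold pkv pk
    rw [REP_proof w l hw, Finset.mul_sum]
    refine Finset.sum_congr rfl (fun i hi => ?_)
    rw [Finset.mem_range] at hi
    have : (BT.leaf l v).val i = v := by
      have hi' : i < l := hi
      simp only [BT.val]
      rw [if_pos hi']
    simp only [this]
  | node a b iha ihb =>
    have e1 : pkv w (BT.node a b) = pkv w a + (pkv w b) <<< (w * a.len) := rfl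
    have e2 : (BT.node a b).len = a.len + b.len := rfl
    rw [e1, e2, iha, ihb, Nat.shiftLeft_eq]
    unfold pk
    rw [Finset.sum_range_add, Finset.sum_mul]
    congr 1
    · refine Finset.sum_congr rfl (fun i hi => ?_)
      rw [Finset.mem_range] at hi
      rw [val_node_lt a b i hi]
    · refine Finset.sum_congr rfl (fun i _ => ?_)
      rw [val_node_ge a b _ (by omega), Nat.add_sub_cancel_left, Nat.mul_add, pow_add]
      ring

theorem rev_len (t : BT) : (rev t).len = t.len := by
  induction t with
  | leaf l v => rfl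
  | node a b iha ihb =>
    simp only [rev, BT.len]
    omega

theorem rev_val (t : BT) : ∀ i, i < t.len → (rev t).val i = t.val (t.len - 1 - i) := by
  induction t with
  | leaf l v =>
    intro i h
    have h' : i < l := h
    have e1 : (rev (.leaf l v)).val i = v := by
      show (if i < l then v else 0) = v
      rw [if_pos h']
    have e2 : (BT.leaf l v).val (l - 1 - i) = v := by
      show (if l - 1 - i < l then v else 0) = v
      rw [if_pos (by omega)]
    rw [e1]
    exact e2.symm
  | node a b iha ihb =>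
    intro i h
    simp only [BT.len] at h
    have hr : rev (.node a b) = .node (rev b) (rev a) := rfl
    rw [hr]
    by_cases h1 : i < b.len
    · rw [val_node_lt _ _ i (by rw [rev_len]; exact h1), ihb i h1]
      simp only [BT.len]
      rw [val_node_ge a b _ (by omega)]
      congr 1
      omega
    · rw [val_node_ge _ _ i (by rw [rev_len]; omega), rev_len, iha _ (by omega)]
      simp only [BT.len]
      rw [val_node_lt a b _ (by omega)]
      congr 1
      omega

theorem mxv_le (t : BT) : ∀ i, t.val i ≤ mxv t := by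
  induction t with
  | leaf l v =>
    intro i
    simp only [BT.val, mxv]
    split_ifs
    · exact le_rfl
    · exact Nat.zero_le _
  | node a b iha ihb =>
    intro i
    by_cases h : i < a.len
    · rw [val_node_lt a b i h]
      exact (iha i).trans (le_max_left _ _)
    · rw [val_node_ge a b i (by omega)]
      exact (ihb _).trans (le_max_right _ _)

theorem ev_eq (w E : ℕ) (t : BT) : ∀ a : ℕ → ℕ, ∑ i ∈ range t.len, a i < 2 ^ w - 1 →
    ev w E t (pk w a t.len) = ∑ i ∈ range t.len, (a i + E) * t.val i ^ 2 := by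
  induction t with
  | leaf l v =>
    intro a hsum
    simp only [BT.len] at hsum ⊢
    simp only [ev, Nat.one_shiftLeft]
    rw [SEGh.pk_mod w a l hsum]
    have h1 : ∑ i ∈ range l, a i + E * l = ∑ i ∈ range l, (a i + E) := by
      rw [Finset.sum_add_distrib, Finset.sum_const, Finset.card_range, smul_eq_mul, mul_comm E]
    rw [h1, Finset.sum_mul]
    refine Finset.sum_congr rfl fun i hi => ?_
    rw [Finset.mem_range] at hi
    simp only [BT.val]
    rw [if_pos hi]
  | node u v ihu ihv =>
    intro a hsum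
    simp only [BT.len] at hsum ⊢
    simp only [ev, Nat.one_shiftLeft]
    rw [Finset.sum_range_add] at hsum
    have hlt : ∀ i, i < u.len → a i < 2 ^ w := by
      intro i hi
      have h1 : a i ≤ ∑ i ∈ range u.len, a i :=
        Finset.single_le_sum (f := a) (fun _ _ => Nat.zero_le _) (Finset.mem_range.2 hi)
      omega
    have hpk := SEGh.pk_lt w a u.len hlt
    have hpos : 0 < 2 ^ (w * u.len) := by positivity
    have hmod : pk w a (u.len + v.len) % 2 ^ (w * u.len) = pk w a u.len := by
      rw [SEGh.pk_append, Nat.add_mul_mod_self_left, Nat.mod_eq_of_lt hpk]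
    have hshift : pk w a (u.len + v.len) >>> (w * u.len) =
        pk w (fun i => a (u.len + i)) v.len := by
      rw [Nat.shiftRight_eq_div_pow, SEGh.pk_append, Nat.add_mul_div_left _ _ hpos,
        Nat.div_eq_of_lt hpk, zero_add]
    rw [hmod, hshift, ihu a (by omega), ihv (fun i => a (u.len + i)) (by omega), Finset.sum_range_add]
    congr 1
    · refine Finset.sum_congr rfl fun i hi => ?_
      rw [Finset.mem_range] at hi
      rw [val_node_lt u v i hi]
    · refine Finset.sum_congr rfl fun i _ => ?_
      rw [val_node_ge u v _ (by omega), Nat.add_sub_cancel_left]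

theorem slotle_sound (w n : ℕ) (hw : 0 < w) (a b : ℕ → ℕ) (ha : ∀ i, i < n → a i < 2 ^ (w - 1))
    (hb : ∀ i, i < n → b i < 2 ^ (w - 1)) (h : slotle w n (pk w a n) (pk w b n) = true) :
    ∀ i, i < n → b i ≤ a i := by
  unfold slotle at h
  have h1 := Nat.eq_of_beq_eq_true h
  have hw2 : 2 ^ w = 2 ^ (w - 1) + 2 ^ (w - 1) := by
    obtain ⟨v, rfl⟩ : ∃ v, w = v + 1 := ⟨w - 1, by omega⟩
    rw [Nat.add_sub_cancel, pow_succ]
    ring
  set c : ℕ → ℕ := fun i => a i + 2 ^ (w - 1) - b i with hc
  have hck : ∀ i, i < n → c i < 2 ^ w := by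
    intro i hi
    have := ha i hi
    simp only [hc]
    omega
  have e1 : pk w a n + (1 <<< (w - 1)) * rep w n - pk w b n = pk w c n := by
    rw [REP_proof w n hw, Nat.one_shiftLeft]
    apply Nat.sub_eq_of_eq_add
    unfold pk
    rw [Finset.mul_sum, ← Finset.sum_add_distrib, ← Finset.sum_add_distrib]
    refine Finset.sum_congr rfl fun i hi => ?_
    rw [Finset.mem_range] at hi
    have h2 : c i + b i = a i + 2 ^ (w - 1) := by
      have := hb i hi
      simp only [hc]
      omega
    rw [← add_mul, ← add_mul, h2]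
  have e2 := MULSh.mask w (w - 1) (by omega) n c hck
  rw [show w - (w - 1) = 1 by omega, show (2 ^ 1 - 1 : ℕ) = 1 by norm_num, one_mul] at e2
  rw [e1, REP_proof w n hw, e2] at h1
  unfold pk at h1
  have h3 : ∀ i ∈ range n, c i / 2 ^ (w - 1) * 2 ^ (w * i) ≤ 2 ^ (w * i) := by
    intro i hi
    rw [Finset.mem_range] at hi
    have h4 : c i / 2 ^ (w - 1) < 2 := by
      rw [Nat.div_lt_iff_lt_mul (by positivity)]
      have := hck i hi
      omega
    have h5 : c i / 2 ^ (w - 1) ≤ 1 := by omega
    calc c i / 2 ^ (w - 1) * 2 ^ (w * i) ≤ 1 * 2 ^ (w * i) := Nat.mul_le_mul_right _ h5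
      _ = _ := one_mul _
  intro i hi
  have h6 := (Finset.sum_eq_sum_iff_of_le h3).1 h1 i (Finset.mem_range.2 hi)
  have h7 : c i / 2 ^ (w - 1) = 1 := by
    have hp : 0 < 2 ^ (w * i) := by positivity
    exact Nat.eq_of_mul_eq_mul_right hp (by rw [h6, one_mul])
  have h8 : 2 ^ (w - 1) ≤ c i := by
    by_contra hcon
    rw [Nat.div_eq_of_lt (by omega)] at h7
    exact absurd h7 (by norm_num)
  have := hb i hi
  simp only [hc] at h8
  omega

/-- the marginal profile, `∑_{c=1}^{y} G(c) φ(y - c)` -/
def HV (t ph : BT) (y : ℕ) : ℕ := ∑ i ∈ range y, t.G (i + 1) * ph.val (y - 1 - i)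

/-- the check of the lower bounds for the marginal profile; `ht` is in the order of the radius -/
def chkH (w : ℕ) (t ph ht : BT) : Bool :=
  Nat.blt (t.sm t.len * mxv ph) (1 <<< (w - 1)) && (Nat.blt (mxv ht) (1 <<< (w - 1)) &&
    (Nat.beq ph.len (t.len + 1) && (Nat.beq ht.len (t.len + 1) &&
      slotle w (t.len + 1) ((((pkv w t) <<< w) * pkv w ph) % (1 <<< (w * (t.len + 1)))) (pkv w (rev ht)))))

theorem HV_le (t ph : BT) (hS : ∀ y, t.sm y = ∑ i ∈ range y, t.val i) (y : ℕ) (hy : y ≤ t.len) :
    HV t ph y ≤ t.sm t.len * mxv ph := by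
  unfold HV
  calc ∑ i ∈ range y, t.G (i + 1) * ph.val (y - 1 - i) ≤ ∑ i ∈ range y, t.val i * mxv ph := by
        refine Finset.sum_le_sum fun i _ => ?_
        unfold BT.G
        rw [Nat.add_sub_cancel]
        exact Nat.mul_le_mul_left _ (mxv_le ph _)
    _ ≤ ∑ i ∈ range t.len, t.val i * mxv ph :=
        Finset.sum_le_sum_of_subset_of_nonneg (range_subset_range.2 hy) fun _ _ _ => Nat.zero_le _
    _ = _ := by rw [← Finset.sum_mul, hS]

theorem chkH_sound (w : ℕ) (hw : 0 < w) (t ph ht : BT) (hS : ∀ y, t.sm y = ∑ i ∈ range y, t.val i)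
    (h : chkH w t ph ht = true) :
    ph.len = t.len + 1 ∧ ht.len = t.len + 1 ∧ ∀ s, s ≤ t.len → ht.val s ≤ HV t ph (t.len - s) := by
  simp only [chkH, Bool.and_eq_true] at h
  obtain ⟨h1, h2, h3, h4, h5⟩ := h
  have hb1 : t.sm t.len * mxv ph < 2 ^ (w - 1) := by
    have := Nat.blt_eq.mp h1
    rwa [Nat.one_shiftLeft] at this
  have hb2 : mxv ht < 2 ^ (w - 1) := by
    have := Nat.blt_eq.mp h2
    rwa [Nat.one_shiftLeft] at this
  have hl1 : ph.len = t.len + 1 := Nat.eq_of_beq_eq_true h3
  have hl2 : ht.len = t.len + 1 := Nat.eq_of_beq_eq_true h4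
  refine ⟨hl1, hl2, ?_⟩
  set n := t.len + 1 with hn
  have hpow : 2 ^ (w - 1) ≤ 2 ^ w := Nat.pow_le_pow_right (by norm_num) (Nat.sub_le _ _)
  -- the shifted weights
  set g : ℕ → ℕ := fun i => if i = 0 then 0 else t.val (i - 1) with hg
  have e1 : (pkv w t) <<< w = pk w g n := by
    rw [pkv_eq w hw, Nat.shiftLeft_eq, hn]
    unfold pk
    rw [Finset.sum_range_succ', Finset.sum_mul]
    simp only [hg, Nat.add_sub_cancel, if_true, Nat.zero_mul, Nat.add_zero, if_neg (Nat.succ_ne_zero _)]
    refine Finset.sum_congr rfl (fun i _ => ?_)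
    rw [Nat.mul_add, pow_add, Nat.mul_one, mul_assoc]
  have e2 : pkv w ph = pk w ph.val n := by rw [pkv_eq w hw, hl1]
  have e3 : ∀ y, y < n → conv g ph.val y = HV t ph y := by
    intro y _
    unfold conv HV
    rw [Finset.sum_range_succ']
    simp only [hg, if_true, Nat.zero_mul, Nat.add_zero, Nat.add_sub_cancel, if_neg (Nat.succ_ne_zero _)]
    refine Finset.sum_congr rfl fun i hi => ?_
    rw [Finset.mem_range] at hi
    unfold BT.G
    rw [Nat.add_sub_cancel, show y - (i + 1) = y - 1 - i by omega]
  have hHV : ∀ y, y < n → HV t ph y < 2 ^ (w - 1) := fun y hy =>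
    lt_of_le_of_lt (HV_le t ph hS y (by omega)) hb1
  have e4 : (((pkv w t) <<< w) * pkv w ph) % (1 <<< (w * n)) = pk w (HV t ph) n := by
    rw [e1, e2, Nat.one_shiftLeft, MULSh.mul_mod w n g ph.val (fun k hk => by
      rw [e3 k hk]
      exact (hHV k hk).trans_le hpow)]
    exact MULSh.pk_congr e3
  have e5 : pkv w (rev ht) = pk w (rev ht).val n := by
    rw [pkv_eq w hw, rev_len, hl2]
  rw [e4, e5] at h5
  have hslot := slotle_sound w n hw _ _ hHV (fun i _ => by
    have h6 : (rev ht).val i ≤ mxv ht := by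
      by_cases hi : i < ht.len
      · rw [rev_val ht i hi]
        exact mxv_le ht _
      · rw [val_out _ _ (by rw [rev_len]; omega)]
        exact Nat.zero_le _
    omega) h5
  intro s hs
  have h7 := hslot (t.len - s) (by omega)
  rw [rev_val ht _ (by omega), hl2] at h7
  rwa [show n - 1 - (t.len - s) = s by omega] at h7

end Pool.Agent.J6H58.D3
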