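import Mathlib
import Pool.Agent.H358R5.Stubs4
import Pool.Agent.H358R5.INVMUL
import Pool.Agent.H358R5.INIT
import Pool.Agent.H358R5.MULS
import Pool.Agent.H358R5.REP
import Pool.Agent.H358R5.CONVA
import Pool.Agent.H358R5.SMV
import Pool.Agent.J6H58.D3.Chern
import Pool.Agent.J6H58.D3.Pack

/-! The certificate check (after `H358R5.SOUNDP`) with explicit exponents, so that the size of the main sum is
known. -/

set_option autoImplicit false

open Finset

namespace Pool.Agent.J6H58.D3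

open Pool.Agent.H358R5

/-- the exponent after the chain -/
def exL : List (Bool × ℕ) → ℕ → ℕ
  | [], e => e
  | (false, t) :: L, e => exL L (e + e + t)
  | (true, t) :: L, e => exL L (e + 0 + t)

theorem go_sound (h1 : S_INVMUL) (G : ℕ → ℕ) (w n1 X1 S1 : ℕ) (f : ℕ → ℕ → ℕ → ℕ → Bool)
    (hw : 0 < w) (h0 : Inv G w n1 1 X1 S1 0 0) : ∀ (L : List (Bool × ℕ)) (n X S E e : ℕ),
    Inv G w n1 n X S E e → go w n1 X1 S1 f L n X S E = true →
    ∃ n' X' S' E', f n' X' S' E' = true ∧ Inv G w n1 n' X' S' E' (exL L e) := by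
  intro L
  induction L with
  | nil =>
    intro n X S E e hI hg
    exact ⟨n, X, S, E, hg, hI⟩
  | cons p L ih =>
    intro n X S E e hI hg
    obtain ⟨b, t⟩ := p
    cases b with
    | false =>
      simp only [go, Bool.and_eq_true] at hg
      obtain ⟨hg1, hg2, hg3⟩ := hg
      have hS : S * S < 2 ^ w := by
        have := Nat.blt_eq.mp hg1
        rwa [Nat.one_shiftLeft] at this
      have ht : t ≤ w := Nat.le_of_ble_eq_true hg2
      have hI' := h1 G w n1 n X S E e n X S E e t hw ht hI hI hS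
      have e1 : n + n = 2 * n := by ring
      have e2 : E * S + E * S + E * E * n1 = 2 * E * S + E * E * n1 := by ring
      rw [e1, e2] at hI'
      exact ih _ _ _ _ _ hI' hg3
    | true =>
      simp only [go, Bool.and_eq_true] at hg
      obtain ⟨hg1, hg2, hg3⟩ := hg
      have hS : S * S1 < 2 ^ w := by
        have := Nat.blt_eq.mp hg1
        rwa [Nat.one_shiftLeft] at this
      have ht : t ≤ w := Nat.le_of_ble_eq_true hg2
      have hI' := h1 G w n1 n X S E e 1 X1 S1 0 0 t hw ht hI h0 hS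
      have e2 : E * S1 + 0 * S + E * 0 * n1 = E * S1 := by ring
      rw [e2] at hI'
      exact ih _ _ _ _ _ hI' hg3

/-- the final check; `X1, S1` belong to the first power, `tK` is the shift of the last multiplication;
`cm` and `ck` are the two factors, `NB` is a lower bound for the numerator; `ph` is the outer profile, `ht` the
lower bound of the marginal profile, in the order of the radius -/
def fin3 (w : ℕ) (t ph ht : BT) (tK cm ck NB K X1 S1 n X S E : ℕ) : Bool :=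
  Nat.beq (n + 1) K && (Nat.blt (S + 1) (1 <<< w) && (Nat.blt (S * S1 / 2 ^ tK + 1) (1 <<< w) &&
    (Nat.blt (S * S1) (1 <<< w) && (Nat.ble tK w &&
      (Nat.blt (cm * (ev w ((E * S1) / 2 ^ tK + 2) (rev ph) (mulS w (t.len + 1) tK X X1) * 2 ^ tK))
        (ck * ev w 0 ht X) && Nat.ble NB (ev w 0 ht X))))))

/-- the certificate check -/
def chk3 (w : ℕ) (t ph ht : BT) (L : List (Bool × ℕ)) (tK cm ck NB K : ℕ) : Bool :=
  go w (t.len + 1) ((t.pkt w) <<< w) (t.sm2 t.len)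
    (fin3 w t ph ht tK cm ck NB K ((t.pkt w) <<< w) (t.sm2 t.len)) L 1 ((t.pkt w) <<< w) (t.sm2 t.len) 0

theorem chk3_sound (w w2 : ℕ) (t ph ht : BT) (L : List (Bool × ℕ))
    (tK cm ck NB K0 : ℕ) (hw : 0 < w) (hw2 : 0 < w2) (hH : chkH w2 t ph ht = true)
    (hchk : chk3 w t ph ht L tK cm ck NB (K0 + 1) = true) :
    cm * ∑ s ∈ range (t.len + 1), AG t.G (K0 + 1) s * ph.val (t.len - s) ^ 2 <
      ck * ∑ s ∈ range (t.len + 1), AG t.G K0 s * HV t ph (t.len - s) ^ 2 ∧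
    2 ^ exL L 0 * NB ≤ ∑ s ∈ range (t.len + 1), AG t.G K0 s * HV t ph (t.len - s) ^ 2 := by
  have h1 : S_INVMUL := INVMUL_proof (MULS_proof REP_proof) CONVA_proof
  have h3 : S_INIT := INIT_proof REP_proof SMV_proof
  obtain ⟨hpl, htl, hlow0⟩ := chkH_sound w2 hw2 t ph ht (fun y => (SMV_proof t y).1) hH
  unfold chk3 at hchk
  have hI0 := h3 t w hw
  obtain ⟨n', X', S', E', hf, hI⟩ := go_sound h1 t.G w (t.len + 1) _ _ _ hw
    hI0 L 1 _ _ 0 0 hI0 hchk
  set e' := exL L 0 with he'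
  simp only [fin3, Bool.and_eq_true] at hf
  obtain ⟨hf1, hf2, hf3, hf4, hf5, hf7, hf8⟩ := hf
  have hn : n' = K0 := by
    have := Nat.eq_of_beq_eq_true hf1
    omega
  have hS : S' + 1 < 2 ^ w := by
    have := Nat.blt_eq.mp hf2
    rwa [Nat.one_shiftLeft] at this
  have hSK : S' * t.sm2 t.len / 2 ^ tK + 1 < 2 ^ w := by
    have := Nat.blt_eq.mp hf3
    rwa [Nat.one_shiftLeft] at this
  have hSS : S' * t.sm2 t.len < 2 ^ w := by
    have := Nat.blt_eq.mp hf4
    rwa [Nat.one_shiftLeft] at this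
  have htK : tK ≤ w := Nat.le_of_ble_eq_true hf5
  have hlt := Nat.blt_eq.mp hf7
  have hNB := Nat.le_of_ble_eq_true hf8
  subst hn
  -- one more multiplication
  have hIK := h1 t.G w (t.len + 1) n' X' S' E' e' 1 _ _ 0 0 tK hw htK hI hI0 hSS
  have e2 : E' * t.sm2 t.len + 0 * S' + E' * 0 * (t.len + 1) = E' * t.sm2 t.len := by ring
  rw [e2] at hIK
  obtain ⟨a, hX, haS, hab⟩ := hI
  obtain ⟨b, hXK, hbS, hbb⟩ := hIK
  set XK := mulS w (t.len + 1) tK X' ((t.pkt w) <<< w) with hXKd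
  set EK := E' * t.sm2 t.len / 2 ^ tK + 2 with hEKd
  have hnum : ev w 0 ht X' ≤ ∑ s ∈ range (t.len + 1), a s * HV t ph (t.len - s) ^ 2 := by
    rw [hX, ← htl, ev_eq w 0 ht a (by rw [htl]; omega), htl]
    refine Finset.sum_le_sum fun s hs => ?_
    rw [Finset.mem_range] at hs
    rw [add_zero]
    exact Nat.mul_le_mul_left _ (Nat.pow_le_pow_left (hlow0 s (by omega)) 2)
  have hden : ∑ s ∈ range (t.len + 1), (b s + EK) * ph.val (t.len - s) ^ 2 ≤ ev w EK (rev ph) XK := by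
    rw [hXK, ← hpl, ← rev_len ph, ev_eq w EK (rev ph) b (by rw [rev_len, hpl]; omega), rev_len]
    refine Finset.sum_le_sum fun s hs => ?_
    rw [Finset.mem_range] at hs
    rw [rev_val ph s hs, show ph.len - 1 - s = t.len - s by omega]
  have hup : ∑ s ∈ range (t.len + 1), AG t.G (n' + 1) s * ph.val (t.len - s) ^ 2 ≤
      2 ^ (e' + tK) * ∑ s ∈ range (t.len + 1), (b s + EK) * ph.val (t.len - s) ^ 2 := by
    rw [Finset.mul_sum]
    apply Finset.sum_le_sum
    intro s hs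
    have h5 := (hbb s (Finset.mem_range.mp hs)).2
    rw [add_zero] at h5
    calc AG t.G (n' + 1) s * ph.val (t.len - s) ^ 2
        ≤ ((b s + EK) * 2 ^ (e' + tK)) * ph.val (t.len - s) ^ 2 :=
          Nat.mul_le_mul_right _ h5
      _ = 2 ^ (e' + tK) * ((b s + EK) * ph.val (t.len - s) ^ 2) := by ring
  have hlow : 2 ^ e' * ∑ s ∈ range (t.len + 1), a s * HV t ph (t.len - s) ^ 2 ≤
      ∑ s ∈ range (t.len + 1), AG t.G n' s * HV t ph (t.len - s) ^ 2 := by
    rw [Finset.mul_sum]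
    apply Finset.sum_le_sum
    intro s hs
    have h5 := (hab s (Finset.mem_range.mp hs)).1
    calc 2 ^ e' * (a s * HV t ph (t.len - s) ^ 2)
        = (a s * 2 ^ e') * HV t ph (t.len - s) ^ 2 := by ring
      _ ≤ AG t.G n' s * HV t ph (t.len - s) ^ 2 := Nat.mul_le_mul_right _ h5
  have hpos : 0 < 2 ^ e' := by positivity
  refine ⟨?_, ?_⟩
  · calc cm * ∑ s ∈ range (t.len + 1), AG t.G (n' + 1) s * ph.val (t.len - s) ^ 2
        ≤ cm * (2 ^ (e' + tK) * ∑ s ∈ range (t.len + 1), (b s + EK) * ph.val (t.len - s) ^ 2) :=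
          Nat.mul_le_mul_left _ hup
      _ ≤ cm * (2 ^ (e' + tK) * ev w EK (rev ph) XK) :=
          Nat.mul_le_mul_left _ (Nat.mul_le_mul_left _ hden)
      _ = 2 ^ e' * (cm * (ev w EK (rev ph) XK * 2 ^ tK)) := by
          rw [pow_add]; ring
      _ < 2 ^ e' * (ck * ev w 0 ht X') := Nat.mul_lt_mul_of_pos_left hlt hpos
      _ ≤ 2 ^ e' * (ck * ∑ s ∈ range (t.len + 1), a s * HV t ph (t.len - s) ^ 2) :=
          Nat.mul_le_mul_left _ (Nat.mul_le_mul_left _ hnum)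
      _ = ck * (2 ^ e' * ∑ s ∈ range (t.len + 1), a s * HV t ph (t.len - s) ^ 2) := by ring
      _ ≤ ck * ∑ s ∈ range (t.len + 1), AG t.G n' s * HV t ph (t.len - s) ^ 2 :=
          Nat.mul_le_mul_left _ hlow
  · calc 2 ^ e' * NB ≤ 2 ^ e' * ev w 0 ht X' := Nat.mul_le_mul_left _ hNB
      _ ≤ 2 ^ e' * ∑ s ∈ range (t.len + 1), a s * HV t ph (t.len - s) ^ 2 :=
          Nat.mul_le_mul_left _ hnum
      _ ≤ _ := hlow

/-- values are zero from the position `y` on -/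
def zf : BT → ℕ → Bool
  | .leaf l v, y => Nat.beq v 0 || Nat.ble l y
  | .node a b, y => zf a y && zf b (y - a.len)

theorem zf_sound : ∀ (t : BT) (y : ℕ), zf t y = true → ∀ i, y ≤ i → t.val i = 0 := by
  intro t
  induction t with
  | leaf l v =>
    intro y h i hi
    simp only [zf, Bool.or_eq_true] at h
    simp only [BT.val]
    rcases h with h | h
    · rw [Nat.eq_of_beq_eq_true h, ite_self]
    · have := Nat.le_of_ble_eq_true h
      rw [if_neg (by omega)]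
  | node a b iha ihb =>
    intro y h i hi
    simp only [zf, Bool.and_eq_true] at h
    simp only [BT.val]
    split_ifs
    · exact iha y h.1 i hi
    · exact ihb _ h.2 _ (by omega)

/-- the Chernoff check -/
def chkW (t ph : BT) (y Y D b K0 NB e q : ℕ) : Bool :=
  Nat.ble 2 D && Nat.ble (D ^ Y * ws y D b t 0 ^ K0 * (t.sm t.len * mxv ph) ^ 2 * 2 ^ q)
    ((D - 1) ^ Y * 2 ^ (b * K0) * (2 ^ e * NB))

theorem chkW_sound (t ph : BT) (y Y D b K0 NB e q : ℕ)
    (h : chkW t ph y Y D b K0 NB e q = true) (H : (Fin K0 → ℕ) → ℝ)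
    (hH : ∀ c, H c = (HV t ph (t.len - ∑ j, (c j + 1)) : ℝ)) :
    2 ^ q * ∑ c ∈ (Fintype.piFinset (fun _ : Fin K0 => range t.len)).filter (fun c => SN y c < Y),
        ((∏ j, (t.G (c j + 1) : ℝ)) * H c) ^ 2 ≤ ((2 ^ e * NB : ℕ) : ℝ) := by
  simp only [chkW, Bool.and_eq_true] at h
  obtain ⟨h1, h2⟩ := h
  have hD : 2 ≤ D := Nat.le_of_ble_eq_true h1
  have hle := Nat.le_of_ble_eq_true h2
  have hWS : ∑ k ∈ range t.len, t.G (k + 1) ^ 2 * wz y D b (k + 1) ≤ ws y D b t 0 := by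
    have := ws_bound y D b (by omega) t 0
    refine le_trans (le_of_eq ?_) this
    refine sum_congr rfl fun k _ => ?_
    unfold BT.G
    rw [Nat.add_sub_cancel, zero_add]
  have hc := chern t.G K0 t.len y Y D b (ws y D b t 0) (t.sm t.len * mxv ph) hD hWS H (by
    intro c
    rw [hH c]
    have := HV_le t ph (fun y => (SMV_proof t y).1) (t.len - ∑ j, (c j + 1)) (Nat.sub_le _ _)
    have h3 : (HV t ph (t.len - ∑ j, (c j + 1)) : ℝ) ≤ ((t.sm t.len * mxv ph : ℕ) : ℝ) := by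
      exact_mod_cast this
    exact pow_le_pow_left₀ (Nat.cast_nonneg _) h3 2)
  set Sb := ∑ c ∈ (Fintype.piFinset (fun _ : Fin K0 => range t.len)).filter (fun c => SN y c < Y),
        ((∏ j, (t.G (c j + 1) : ℝ)) * H c) ^ 2 with hSb
  have hle' : (D : ℝ) ^ Y * (ws y D b t 0 : ℝ) ^ K0 * ((t.sm t.len * mxv ph : ℕ) : ℝ) ^ 2 * 2 ^ q ≤
      ((D - 1 : ℕ) : ℝ) ^ Y * 2 ^ (b * K0) * ((2 ^ e * NB : ℕ) : ℝ) := by
    exact_mod_cast hle
  have hpos : 0 < ((D - 1 : ℕ) : ℝ) ^ Y * (2 : ℝ) ^ (b * K0) := by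
    have : 0 < D - 1 := by omega
    have : (0 : ℝ) < ((D - 1 : ℕ) : ℝ) := by exact_mod_cast this
    positivity
  have h5 : ((D - 1 : ℕ) : ℝ) ^ Y * 2 ^ (b * K0) * (2 ^ q * Sb) ≤
      ((D - 1 : ℕ) : ℝ) ^ Y * 2 ^ (b * K0) * ((2 ^ e * NB : ℕ) : ℝ) := by
    calc ((D - 1 : ℕ) : ℝ) ^ Y * 2 ^ (b * K0) * (2 ^ q * Sb)
        = (((D - 1 : ℕ) : ℝ) ^ Y * 2 ^ (b * K0) * Sb) * 2 ^ q := by ring
      _ ≤ ((D : ℝ) ^ Y * (ws y D b t 0 : ℝ) ^ K0 * ((t.sm t.len * mxv ph : ℕ) : ℝ) ^ 2) * 2 ^ q :=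
          mul_le_mul_of_nonneg_right hc (by positivity)
      _ ≤ _ := hle'
  exact le_of_mul_le_mul_left h5 hpos

end Pool.Agent.J6H58.D3
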