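import Pool.Agent.J6H58.D3.DatT
import Pool.Agent.J6H58.D3.Snd

/-! The kernel check of the certificate for three primes, `K = 2890`. -/

set_option autoImplicit false

namespace Pool.Agent.J6H58.D3

open Pool.Agent.H358R5

set_option maxRecDepth 100000 in
theorem cert_check : chk3 112 DatT.bt DatT.ph DatT.ht DatT.ops 56 (4 * 2 * 2097152 * 2 ^ 16)
    ((2889 + 1) * (2 ^ 16 - 1)) DatT.NB (2889 + 1) = true := by
  decide +kernel

end Pool.Agent.J6H58.D3
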