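import Pool.Agent.J6H58.D3.DatT
import Pool.Agent.J6H58.D3.Snd

/-! The other kernel checks for three primes, `K = 2890`: the marginal profile and the exceptional cells. -/

set_option autoImplicit false

namespace Pool.Agent.J6H58.D3

open Pool.Agent.H358R5

theorem len_eq : DatT.bt.len = 2146855 := by decide +kernel

theorem cap_check : zf DatT.bt 943718 = true := by decide +kernel

set_option maxRecDepth 100000 in
theorem prof_check : chkH 56 DatT.bt DatT.ph DatT.ht = true := by decide +kernel

set_option maxRecDepth 100000 in
theorem bad1_check : chkW DatT.bt DatT.ph 419 (125833 + 419) 272 40 2889 DatT.NB (exL DatT.ops 0) 17 = true := by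
  decide +kernel

set_option maxRecDepth 100000 in
theorem bad2_check : chkW DatT.bt DatT.ph 41943 (851445 + 41943) 11523 30 2889 DatT.NB (exL DatT.ops 0) 17 = true := by
  decide +kernel

end Pool.Agent.J6H58.D3
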