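import Pool.Agent.Y823.Z.CombB

/-!
# The grouping lemma for tuples with many small coordinates, total radius `2.0474`

The method of `Pool.Agent.Y823.Z` (helper823) and `Pool.Agent.Y826.Z` (greedy choice of three sets). Here both
tuples have a large total size of very small coordinates, and the granularity disappears almost completely;
`2.0476…` is the limit of the method.
-/

set_option autoImplicit false
set_option linter.unusedSectionVars false

namespace Pool.Agent.J6H58.D3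

open Finset Pool.Agent.Y823.Z

section

variable {ι : Type} [Fintype ι] [DecidableEq ι]

/-- The data of the grouping lemma. -/
structure Dat3 (t X : ι → ℝ) (n : ℝ) : Prop where
  h0 : ∀ z, 0 ≤ X z
  h1 : ∀ z, X z ≤ t z
  h2 : ∀ z, t z ≤ 0.5
  hT : ∑ z, t z ≤ 2.0474
  hX : 2 - 0.000001 ≤ ∑ z, X z
  hn1 : 4 / 3 - 0.000001 ≤ n
  hn2 : n ≤ 2 + 0.000001
  sa : 0.12 ≤ ∑ z ∈ univ.filter (fun z => t z ≤ 0.0002), t z
  sb : 0.812 ≤ ∑ z ∈ univ.filter (fun z => t z ≤ 0.02), t z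

variable {t X : ι → ℝ} {n : ℝ}

theorem Dat3.le (D : Dat3 t X n) : ∑ z, X z ≤ 2.0474 := (sum_le_sum fun z _ => D.h1 z).trans D.hT

/-- the sum of the `X z` over the small items -/
theorem Dat3.small (D : Dat3 t X n) (x F : ℝ)
    (hF : F ≤ ∑ z ∈ univ.filter (fun z => t z ≤ x), t z) :
    F - 2.0474 + ∑ z, X z ≤ ∑ z ∈ univ.filter (fun z => t z ≤ x), X z := by
  have h1 : ∑ z ∈ univ.filter (fun z => t z ≤ x), (t z - X z) ≤ ∑ z, (t z - X z) := by
    refine sum_le_sum_of_subset_of_nonneg (filter_subset _ _) fun z _ _ => ?_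
    have := D.h1 z
    linarith
  rw [sum_sub_distrib, sum_sub_distrib] at h1
  have := D.hT
  linarith

/-- the same outside of `V` -/
theorem Dat3.star (D : Dat3 t X n) (V : Finset ι) (x y F : ℝ) (hxy : x < y)
    (hF : F ≤ ∑ z ∈ univ.filter (fun z => t z ≤ x), t z) :
    F - 2.0474 + ∑ z, X z - ∑ z ∈ V, X z ≤
      ∑ z ∈ (univ \ V).filter (fun z => t z < y), X z := by
  have h1 := D.small x F hF
  have h2 : ∑ z ∈ univ.filter (fun z => t z ≤ x), X z ≤
      ∑ z ∈ (univ \ V).filter (fun z => t z < y) ∪ V, X z := by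
    refine sum_le_sum_of_subset_of_nonneg ?_ fun z _ _ => D.h0 z
    intro z hz
    rw [mem_filter] at hz
    rw [mem_union, mem_filter, mem_sdiff]
    by_cases hzV : z ∈ V
    · exact Or.inr hzV
    · exact Or.inl ⟨⟨mem_univ _, hzV⟩, lt_of_le_of_lt hz.2 hxy⟩
  have h3 : ∑ z ∈ (univ \ V).filter (fun z => t z < y) ∪ V, X z ≤
      ∑ z ∈ (univ \ V).filter (fun z => t z < y), X z + ∑ z ∈ V, X z := by
    have h4 := sum_union_inter (s₁ := (univ \ V).filter (fun z => t z < y)) (s₂ := V) (f := X)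
    have h5 : 0 ≤ ∑ z ∈ (univ \ V).filter (fun z => t z < y) ∩ V, X z :=
      sum_nonneg fun z _ => D.h0 z
    linarith
  linarith

/-- Step 1: the set `V` -/
theorem Dat3.step1 (D : Dat3 t X n) (τp : ℝ) (hτ0 : 0 ≤ τp)
    (hτ : τp ≤ ∑ z, X z - 2 + 0.000001) : ∃ V : Finset ι,
    τp + 0.00013 ≤ ∑ z ∈ V, X z ∧ ∑ z ∈ V, X z ≤ τp + 0.00033 := by
  obtain ⟨V, hVS, hVc, hV⟩ := greedy X (τp + 0.00033) (by linarith)
    (univ.filter (fun z => t z ≤ 0.0002)) (fun z _ => D.h0 z)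
  refine ⟨V, ?_, hVc⟩
  rcases hV with hV | ⟨r, hrS, _, hr1, _⟩
  · have h1 := D.small _ _ D.sa
    rw [hV]
    linarith
  · have h2 : X r ≤ 0.0002 := (D.h1 r).trans (mem_filter.1 hrS).2
    have h3 : ∑ z ∈ V.filter (fun z => X r ≤ X z), X z ≤ ∑ z ∈ V, X z :=
      sum_le_sum_of_subset_of_nonneg (filter_subset _ _) fun z _ _ => D.h0 z
    linarith

/-- Step 2: the set `R` -/
theorem Dat3.step2 (D : Dat3 t X n) (V : Finset ι)
    (hV : 2 - 0.000331 ≤ ∑ z, X z - ∑ z ∈ V, X z) : ∃ R ⊆ univ \ V,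
    ∑ z ∈ R, X z ≤ n - 0.00001 ∧ (R = univ \ V ∨ n - 0.00021 ≤ ∑ z ∈ R, X z) := by
  have hn1 := D.hn1
  obtain ⟨R, hRS, hRc, hR⟩ := greedy X (n - 0.00001) (by linarith) (univ \ V) (fun z _ => D.h0 z)
  refine ⟨R, hRS, hRc, ?_⟩
  rcases hR with hR | ⟨r, hrS, hrR, hr1, hr2⟩
  · exact Or.inl hR
  right
  by_contra hcon
  push Not at hcon
  have h1 : ∑ z ∈ R, X z = ∑ z ∈ R.filter (fun z => X r ≤ X z), X z +
      ∑ z ∈ R.filter (fun z => ¬ X r ≤ X z), X z := (sum_filter_add_sum_filter_not _ _ _).symm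
  have h2 : ∑ z ∈ R.filter (fun z => ¬ X r ≤ X z), X z < X r - 0.0002 := by linarith
  have h3 : ∑ z ∈ (univ \ V).filter (fun z => t z < X r), X z ≤
      ∑ z ∈ R.filter (fun z => ¬ X r ≤ X z), X z := by
    refine sum_le_sum_of_subset_of_nonneg ?_ fun z _ _ => D.h0 z
    intro z hz
    rw [mem_filter] at hz ⊢
    have h4 : X z < X r := (D.h1 z).trans_lt hz.2
    exact ⟨hr2 z hz.1 h4, not_le.2 h4⟩
  have h0 : 0 ≤ ∑ z ∈ R.filter (fun z => ¬ X r ≤ X z), X z := sum_nonneg fun z _ => D.h0 z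
  have key : ∀ x F : ℝ, x < X r → F ≤ ∑ z ∈ univ.filter (fun z => t z ≤ x), t z →
      F - 0.047731 < X r := by
    intro x F hx hF
    have := D.star V x (X r) F hx hF
    linarith
  have y0 : 0.0002 < X r := by linarith
  have y1 := key _ _ y0 D.sa
  have y2 := key _ _ (show (0.02 : ℝ) < X r by linarith) D.sb
  have := D.h1 r
  have := D.h2 r
  linarith

/-- Step 4: the set `A` -/
theorem Dat3.step4 (D : Dat3 t X n) (hn : n < 1.6) (τp : ℝ) (hτ0 : 0 ≤ τp) (hτ1 : τp ≤ 0.047401)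
    (V R : Finset ι)
    (hV : 2 - 0.000331 ≤ ∑ z, X z - ∑ z ∈ V, X z) (hR : R ⊆ univ \ V)
    (hρ : n - 0.00021 ≤ ∑ z ∈ R, X z) : ∃ A ⊆ univ \ V,
    4 - 3 * n + 16 * τp + 0.00164 ≤ ∑ z ∈ A, (if z ∈ R then X z else 2 * X z) ∧
    ∑ z ∈ A, (if z ∈ R then X z else 2 * X z) ≤ n - 12 * τp - 0.0022 := by
  have hn1 := D.hn1
  set ω : ι → ℝ := fun z => if z ∈ R then X z else 2 * X z with hω
  have hω1 : ∀ z, X z ≤ ω z := by
    intro z
    have := D.h0 z
    simp only [hω]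
    split_ifs <;> linarith
  have hω2 : ∀ z, ω z ≤ 2 * X z := by
    intro z
    have := D.h0 z
    simp only [hω]
    split_ifs <;> linarith
  have hω0 : ∀ z, 0 ≤ ω z := fun z => (D.h0 z).trans (hω1 z)
  obtain ⟨A, hAS, hAc, hA⟩ := greedy ω (n - 12 * τp - 0.0022) (by linarith)
    ((univ \ V).filter (fun z => ω z ≤ n - 12 * τp - 0.0022)) (fun z _ => hω0 z)
  refine ⟨A, hAS.trans (filter_subset _ _), ?_, hAc⟩
  by_contra hlt
  push Not at hlt
  rcases hA with hA | ⟨r, hrS, hrA, hr1, hr2⟩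
  · have h1 : ∑ z ∈ R, X z ≤ ∑ z ∈ A, ω z := by
      calc ∑ z ∈ R, X z ≤ ∑ z ∈ R, ω z := sum_le_sum fun z _ => hω1 z
        _ ≤ ∑ z ∈ A, ω z := by
            refine sum_le_sum_of_subset_of_nonneg ?_ fun z _ _ => hω0 z
            intro z hz
            rw [hA, mem_filter]
            refine ⟨hR hz, ?_⟩
            have h2 : ω z = X z := by simp only [hω, if_pos hz]
            have := D.h1 z
            have := D.h2 z
            linarith
    linarith
  · have hrc : ω r ≤ n - 12 * τp - 0.0022 := (mem_filter.1 hrS).2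
    have h1 : ∑ z ∈ A, ω z = ∑ z ∈ A.filter (fun z => ω r ≤ ω z), ω z +
        ∑ z ∈ A.filter (fun z => ¬ ω r ≤ ω z), ω z := (sum_filter_add_sum_filter_not _ _ _).symm
    have h1' : 0 ≤ ∑ z ∈ A.filter (fun z => ω r ≤ ω z), ω z := sum_nonneg fun z _ => hω0 z
    have h3 : ∑ z ∈ (univ \ V).filter (fun z => t z < ω r / 2), X z ≤
        ∑ z ∈ A.filter (fun z => ¬ ω r ≤ ω z), ω z := by
      calc ∑ z ∈ (univ \ V).filter (fun z => t z < ω r / 2), X z ≤
          ∑ z ∈ (univ \ V).filter (fun z => t z < ω r / 2), ω z := sum_le_sum fun z _ => hω1 z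
        _ ≤ ∑ z ∈ A.filter (fun z => ¬ ω r ≤ ω z), ω z := by
            refine sum_le_sum_of_subset_of_nonneg ?_ fun z _ _ => hω0 z
            intro z hz
            rw [mem_filter] at hz
            have h4 : ω z < ω r := by
              have := hω2 z
              have := D.h1 z
              have := hz.2
              linarith
            rw [mem_filter]
            refine ⟨hr2 z (mem_filter.2 ⟨hz.1, ?_⟩) h4, not_le.2 h4⟩
            linarith
    have key : ∀ x F : ℝ, x < ω r / 2 → F ≤ ∑ z ∈ univ.filter (fun z => t z ≤ x), t z →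
        F - 0.047731 ≤ ∑ z ∈ A.filter (fun z => ¬ ω r ≤ ω z), ω z := by
      intro x F hx hF
      have := D.star V x (ω r / 2) F hx hF
      linarith
    have h5 : 0 ≤ ∑ z ∈ A.filter (fun z => ¬ ω r ≤ ω z), ω z := sum_nonneg fun z _ => hω0 z
    have y0 : 0.0002 < ω r / 2 := by linarith
    have y1 := key _ _ y0 D.sa
    have y2 := key _ _ (show (0.02 : ℝ) < ω r / 2 by linarith) D.sb
    linarith

/-- The grouping lemma for nonnegative exponents. -/
theorem Dat3.main (D : Dat3 t X n) : ∃ g : ι → Fin 5, ∀ Y : Fin 5 → ℝ,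
    (∀ i, Y i = ∑ z ∈ univ.filter (fun z => g z = i), X z) →
    Y 0 + Y 1 + Y 2 + Y 3 + Y 4 = ∑ z, X z ∧ ∃ H : ℝ, 0 ≤ H ∧
      H = 2 * (∑ z, X z - 2) + (n - (Y 0 + Y 1)) ∧
      Y 0 + Y 1 + 0.000001 ≤ n ∧ Y 0 + Y 1 + 2 * Y 2 + 2 * Y 3 + 0.000001 ≤ 4 - n ∧
      Y 0 + 2 * Y 2 + 4 * Y 4 + 4 * H + 0.000001 ≤ n ∧
      Y 1 + 2 * Y 3 + 8 * H + 0.000001 ≤ 2 * n ∧
      8 * H + 0.000001 ≤ Y 1 + 2 * Y 3 := by
  have hX := D.hX
  have hn1 := D.hn1
  have hn2 := D.hn2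
  have hTT := D.le
  obtain ⟨τp, hτ0, hτ1, hτ2⟩ : ∃ τp : ℝ, 0 ≤ τp ∧ ∑ z, X z - 2 ≤ τp ∧
      τp ≤ ∑ z, X z - 2 + 0.000001 := by
    refine ⟨max 0 (∑ z, X z - 2), le_max_left _ _, le_max_right _ _, ?_⟩
    refine max_le ?_ ?_ <;> linarith
  obtain ⟨V, hV1, hV2⟩ := D.step1 τp hτ0 hτ2
  obtain ⟨R, hRV, hRc, hR⟩ := D.step2 V (by linarith)
  by_cases hn : n < 1.6
  · -- then `R` is not everything
    have hρ : n - 0.00021 ≤ ∑ z ∈ R, X z := by
      rcases hR with hR | hR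
      · exfalso
        have h1 := sum_sdiff (f := X) (subset_univ V)
        rw [hR] at hRc
        linarith
      · exact hR
    obtain ⟨A, hAV, hA1, hA2⟩ := D.step4 hn τp hτ0 (by linarith) V R (by linarith) hRV hρ
    obtain ⟨g, hg⟩ := groups X V R A hRV hAV
    refine ⟨g, fun Y hY => ?_⟩
    obtain ⟨g1, g2, g3, g4⟩ := hg Y hY
    refine ⟨g4, _, ?_, rfl, ?_, ?_, ?_, ?_, ?_⟩ <;> linarith
  · push Not at hn
    obtain ⟨g, hg⟩ := groups X V R ∅ hRV (empty_subset _)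
    refine ⟨g, fun Y hY => ?_⟩
    obtain ⟨g1, g2, g3, g4⟩ := hg Y hY
    rw [sum_empty] at g2
    have hρ : n - 0.00021 ≤ ∑ z ∈ R, X z ∨ (∑ z ∈ R, X z = ∑ z, X z - ∑ z ∈ V, X z) := by
      rcases hR with hR | hR
      · right
        have h1 := sum_sdiff (f := X) (subset_univ V)
        rw [hR]
        linarith
      · exact Or.inl hR
    refine ⟨g4, _, ?_, rfl, ?_, ?_, ?_, ?_, ?_⟩
    · linarith
    · linarith
    · rcases hρ with h | h <;> linarith
    · rcases hρ with h | h <;> linarith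
    · rcases hρ with h | h <;> linarith
    · rcases hρ with h | h <;> linarith

end

end Pool.Agent.J6H58.D3
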