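import Mathlib
import Pool.Agent.H358R5.GCrit
import Pool.Agent.J6H58.D3.Chern
import Pool.Agent.J6H58.D3.Comb

/-! The truncated weight: the product weight restricted to cells with many small coordinates. -/

set_option autoImplicit false

open Finset

namespace Pool.Agent.J6H58.D3

open Pool.Agent.H358R5 Pool.Agent.H95R2.BG
open Pool.Agent.Y826.Z (Sm)

/-- enough small coordinates -/
def Ok3 {K : ℕ} (y1 Y1 y2 Y2 : ℕ) (c : Fin K → ℕ) : Prop := Y1 + y1 ≤ SN y1 c ∧ Y2 + y2 ≤ SN y2 c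

open Classical in
/-- the truncated weight -/
noncomputable def FT (G φ : ℕ → ℕ) (N y1 Y1 y2 Y2 : ℕ) {K : ℕ} (c : Fin K → ℕ) : ℝ :=
  if Ok3 y1 Y1 y2 Y2 c then FG G φ N c else 0

theorem SN_insert {K0 : ℕ} (y : ℕ) (i : Fin (K0 + 1)) (t : ℕ) (c : Fin K0 → ℕ) :
    SN y (Fin.insertNth (α := fun _ => ℕ) i t c) = (if t + 1 ≤ y then t + 1 else 0) + SN y c := by
  unfold SN
  rw [Fin.sum_univ_succAbove _ i]
  simp

theorem FG_nonneg (G φ : ℕ → ℕ) (N : ℕ) {K : ℕ} (c : Fin K → ℕ) : 0 ≤ FG G φ N c := by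
  unfold FG
  split_ifs
  · exact mul_nonneg (prod_nonneg fun j _ => Nat.cast_nonneg _) (Nat.cast_nonneg _)
  · exact le_rfl

theorem FT_sq_le (G φ : ℕ → ℕ) (N y1 Y1 y2 Y2 : ℕ) {K : ℕ} (c : Fin K → ℕ) :
    FT G φ N y1 Y1 y2 Y2 c ^ 2 ≤ FG G φ N c ^ 2 := by
  unfold FT
  split_ifs
  · exact le_rfl
  · simpa using sq_nonneg (FG G φ N c)

/-- the support of the marginals -/
theorem UU_FT_supp (G φ : ℕ → ℕ) (N y1 Y1 y2 Y2 cap : ℕ) (hcap : ∀ k, cap < k → G k = 0) {K0 : ℕ}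
    (i : Fin (K0 + 1)) (c : Fin K0 → ℕ) (h : UU N (FT G φ N y1 Y1 y2 Y2) i c ≠ 0) :
    Y1 ≤ SN y1 c ∧ Y2 ≤ SN y2 c ∧ rad c + 1 ≤ N ∧ ∀ j, c j + 1 ≤ cap := by
  unfold UU at h
  obtain ⟨t, _, ht⟩ := exists_ne_zero_of_sum_ne_zero h
  unfold FT at ht
  split_ifs at ht with hok
  · obtain ⟨h1, h2⟩ := hok
    rw [SN_insert] at h1 h2
    have h3 : (if t + 1 ≤ y1 then t + 1 else 0) ≤ y1 := by split_ifs <;> omega
    have h4 : (if t + 1 ≤ y2 then t + 1 else 0) ≤ y2 := by split_ifs <;> omega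
    rw [FG_insert] at ht
    split_ifs at ht with hN
    · refine ⟨by omega, by omega, ?_, fun j => ?_⟩
      · unfold rad
        omega
      · by_contra hcon
        apply ht
        have h5 : G (c j + 1) = 0 := hcap _ (by omega)
        have h6 : ∏ j, (G (c j + 1) : ℝ) = 0 := prod_eq_zero (mem_univ j) (by rw [h5]; simp)
        rw [h6]
        ring
    · exact absurd rfl ht
  · exact absurd rfl ht

/-- the marginals of good cells are the full marginals -/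
theorem UU_FT_ok (G φ : ℕ → ℕ) (N y1 Y1 y2 Y2 : ℕ) {K0 : ℕ} (i : Fin (K0 + 1)) (c : Fin K0 → ℕ)
    (h : Ok3 y1 Y1 y2 Y2 c) : UU N (FT G φ N y1 Y1 y2 Y2) i c = UU N (FG G φ N) i c := by
  unfold UU
  refine sum_congr rfl fun t _ => ?_
  unfold FT
  rw [if_pos]
  obtain ⟨h1, h2⟩ := h
  exact ⟨by rw [SN_insert]; omega, by rw [SN_insert]; omega⟩

/-- the full marginal does not depend on `i` -/
theorem UU_FG_eq (G φ : ℕ → ℕ) (N : ℕ) {K0 : ℕ} (i : Fin (K0 + 1)) (c : Fin K0 → ℕ) :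
    UU N (FG G φ N) i c = (∏ j, (G (c j + 1) : ℝ)) * ((∑ t ∈ range (N - ∑ j, (c j + 1)),
        G (t + 1) * φ (N - ∑ j, (c j + 1) - 1 - t) : ℕ) : ℝ) := by
  unfold UU
  exact FG_inner G φ N K0 i c

/-- lower bound for the sum of the squares of the marginals -/
theorem marg_lower (G φ : ℕ → ℕ) (N y1 Y1 y2 Y2 : ℕ) {K0 : ℕ} (i : Fin (K0 + 1))
    (S : Finset (Fin K0 → ℕ)) (hU : ∀ c ∈ Box K0 N, UU N (FT G φ N y1 Y1 y2 Y2) i c ≠ 0 → c ∈ S)
    (BAD1 BAD2 : ℝ)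
    (h1 : ∑ c ∈ (Box K0 N).filter (fun c => SN y1 c < Y1 + y1), UU N (FG G φ N) i c ^ 2 ≤ BAD1)
    (h2 : ∑ c ∈ (Box K0 N).filter (fun c => SN y2 c < Y2 + y2), UU N (FG G φ N) i c ^ 2 ≤ BAD2) :
    ∑ c ∈ Box K0 N, UU N (FG G φ N) i c ^ 2 - BAD1 - BAD2 ≤
      ∑ c ∈ S, UU N (FT G φ N y1 Y1 y2 Y2) i c ^ 2 := by
  classical
  have e1 : ∑ c ∈ Box K0 N, UU N (FT G φ N y1 Y1 y2 Y2) i c ^ 2 ≤
      ∑ c ∈ S, UU N (FT G φ N y1 Y1 y2 Y2) i c ^ 2 := by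
    have e2 : ∑ c ∈ Box K0 N, UU N (FT G φ N y1 Y1 y2 Y2) i c ^ 2 =
        ∑ c ∈ (Box K0 N).filter (fun c => UU N (FT G φ N y1 Y1 y2 Y2) i c ≠ 0),
          UU N (FT G φ N y1 Y1 y2 Y2) i c ^ 2 := by
      symm
      refine sum_filter_of_ne fun c _ hc => ?_
      intro h
      apply hc
      rw [h]
      ring
    rw [e2]
    refine sum_le_sum_of_subset_of_nonneg ?_ fun c _ _ => sq_nonneg _
    intro c hc
    rw [mem_filter] at hc
    exact hU c hc.1 hc.2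
  have e3 : ∑ c ∈ Box K0 N, UU N (FG G φ N) i c ^ 2 ≤
      ∑ c ∈ Box K0 N, (UU N (FT G φ N y1 Y1 y2 Y2) i c ^ 2 +
        (if SN y1 c < Y1 + y1 then UU N (FG G φ N) i c ^ 2 else 0) +
        (if SN y2 c < Y2 + y2 then UU N (FG G φ N) i c ^ 2 else 0)) := by
    refine sum_le_sum fun c _ => ?_
    have p1 := sq_nonneg (UU N (FT G φ N y1 Y1 y2 Y2) i c)
    have p2 := sq_nonneg (UU N (FG G φ N) i c)
    by_cases hok : Ok3 y1 Y1 y2 Y2 c
    · rw [UU_FT_ok G φ N y1 Y1 y2 Y2 i c hok]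
      split_ifs <;> linarith
    · unfold Ok3 at hok
      rw [not_and_or, not_le, not_le] at hok
      rcases hok with h | h
      · rw [if_pos h]
        split_ifs <;> linarith
      · rw [if_pos h]
        split_ifs <;> linarith
  rw [sum_add_distrib, sum_add_distrib, ← sum_filter, ← sum_filter] at e3
  linarith

/-- the small coordinates in the two normalisations -/
theorem Sm_ge {K0 : ℕ} (N1 : ℕ) (hN1 : 0 < N1) (x : ℝ) (y : ℕ) (hy : (y : ℝ) ≤ x * N1) (c : Fin K0 → ℕ) :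
    (SN y c : ℝ) / N1 ≤ Sm N1 x c := by
  have hN1' : (0 : ℝ) < N1 := by exact_mod_cast hN1
  unfold SN Sm
  push_cast
  rw [sum_div]
  refine sum_le_sum fun j _ => ?_
  by_cases h : c j + 1 ≤ y
  · rw [if_pos h, if_pos]
    rw [div_le_iff₀ hN1']
    have h' : ((c j : ℝ) + 1) ≤ y := by exact_mod_cast h
    linarith
  · rw [if_neg h, zero_div]
    split_ifs
    · positivity
    · exact le_rfl

end Pool.Agent.J6H58.D3
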