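import Mathlib
import Pool.Agent.Y826.ZG.Main
import Pool.Agent.Y876.FF.Tr
import Pool.Agent.J6H58.D3.Crit
import Pool.Agent.J6H58.D3.Wt
import Pool.Agent.J6H58.D3.Snd

/-! From the certificate to `m + 1` primes among `K` admissible linear forms. -/

set_option autoImplicit false

open Finset Filter

namespace Pool.Agent.J6H58.D3

open Pool.Agent.H358R5 Pool.Agent.H95R2.BG Pool.Agent.H95R2.BG.LF
open Pool.Agent.Y826.Z (Sm Ev)
open Pool.Agent.Y826.ZG (S_P2L)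

/-- the criterion, with the sums over the radius -/
theorem critT (hP2 : S_P2L) (m K0 N1 N y1 Y1 y2 Y2 cap : ℕ) (G φ : ℕ → ℕ)
    (hN1 : 0 < N1) (hN : N ≤ 2 * N1) (hN0 : 1 ≤ N) (hrad : 20000 * (N - 1) ≤ 20474 * N1)
    (hcap : 2 * cap ≤ N1) (hy1 : 10000 * y1 ≤ 2 * N1) (hY1 : 6 * N1 ≤ 100 * Y1)
    (hy2 : 100 * y2 ≤ 2 * N1) (hY2 : 406 * N1 ≤ 1000 * Y2) (hG : ∀ k, cap < k → G k = 0)
    (A Bn : ℝ) (hA : ∑ s ∈ range (N + 1), (AG G (K0 + 1) s : ℝ) * (φ (N - s) : ℝ) ^ 2 ≤ A)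
    (hB : Bn ≤ ∑ s ∈ range (N + 1), (AG G K0 s : ℝ) *
      ((∑ t ∈ range (N - s), G (t + 1) * φ (N - s - 1 - t) : ℕ) : ℝ) ^ 2)
    (h1 : 2 ^ 17 * ∑ c ∈ (Box K0 N).filter (fun c => SN y1 c < Y1 + y1),
      ((∏ j, (G (c j + 1) : ℝ)) * ((∑ t ∈ range (N - ∑ j, (c j + 1)),
        G (t + 1) * φ (N - ∑ j, (c j + 1) - 1 - t) : ℕ) : ℝ)) ^ 2 ≤ Bn)
    (h2 : 2 ^ 17 * ∑ c ∈ (Box K0 N).filter (fun c => SN y2 c < Y2 + y2),
      ((∏ j, (G (c j + 1) : ℝ)) * ((∑ t ∈ range (N - ∑ j, (c j + 1)),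
        G (t + 1) * φ (N - ∑ j, (c j + 1) - 1 - t) : ℕ) : ℝ)) ^ 2 ≤ Bn)
    (h : 4 * m * N1 * 2 ^ 16 * A < (K0 + 1) * (2 ^ 16 - 1) * Bn) :
    ∀ (a b : Fin (K0 + 1) → ℕ), AdmissibleL a b →
    ∀ᶠ X : ℝ in atTop, X / Real.log X ^ CC (K0 + 1) ≤ ((gdM m a b (3 * X)).card : ℝ) := by
  classical
  have hN1r : (0 : ℝ) < N1 := by exact_mod_cast hN1
  set F : (Fin (K0 + 1) → ℕ) → ℝ := FT G φ N y1 Y1 y2 Y2 with hF
  have hR : N - 1 < 2 * N1 := by omega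
  have hFs : ∀ c, F c ≠ 0 → rad c ≤ N - 1 + 1 := by
    intro c hc
    rw [hF] at hc
    unfold FT at hc
    split_ifs at hc with hok
    · unfold FG at hc
      have h1 : ∑ j, (c j + 1) ≤ N := by
        by_contra hcon
        rw [if_neg hcon] at hc
        exact hc rfl
      unfold rad
      omega
    · exact absurd rfl hc
  set S : Finset (Fin K0 → ℕ) := (Box K0 N).filter (fun c => ∃ i, UU N F i c ≠ 0) with hS
  have hSB : S ⊆ Box K0 N := filter_subset _ _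
  have hSU : ∀ i, ∀ c ∈ Box K0 N, UU N F i c ≠ 0 → c ∈ S := fun i c hc hne =>
    mem_filter.2 ⟨hc, i, hne⟩
  have hgood : ∀ c ∈ S, Gd3 N1 c ∧ rad c + 1 ≤ N := by
    intro c hc
    obtain ⟨-, i, hi⟩ := mem_filter.1 hc
    obtain ⟨g1, g2, g3, g4⟩ := UU_FT_supp G φ N y1 Y1 y2 Y2 cap hG i c hi
    refine ⟨⟨fun j => ?_, ?_, ?_⟩, g3⟩
    · rw [div_le_iff₀ hN1r]
      have h5 : ((c j : ℝ) + 1) ≤ cap := by exact_mod_cast g4 j
      have h6 : (2 : ℝ) * cap ≤ N1 := by exact_mod_cast hcap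
      linarith
    · refine le_trans ?_ (Sm_ge N1 hN1 0.0002 y1 ?_ c)
      · rw [le_div_iff₀ hN1r]
        have h5 : (Y1 : ℝ) ≤ SN y1 c := by exact_mod_cast g1
        have h6 : (6 : ℝ) * N1 ≤ 100 * Y1 := by exact_mod_cast hY1
        linarith
      · have h6 : (10000 : ℝ) * y1 ≤ 2 * N1 := by exact_mod_cast hy1
        linarith
    · refine le_trans ?_ (Sm_ge N1 hN1 0.02 y2 ?_ c)
      · rw [le_div_iff₀ hN1r]
        have h5 : (Y2 : ℝ) ≤ SN y2 c := by exact_mod_cast g2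
        have h6 : (406 : ℝ) * N1 ≤ 1000 * Y2 := by exact_mod_cast hY2
        linarith
      · have h6 : (100 : ℝ) * y2 ≤ 2 * N1 := by exact_mod_cast hy2
        linarith
  refine critm hP2 m hN1 hN hR F hFs S hSB hSU 0 (fun _ => 0) (fun _ => le_rfl) (fun _ _ => 0)
    (fun _ _ => 1) ?_ ?_ ?_
  · intro Y
    simp only [one_mul, Finset.univ_eq_empty, Finset.sum_empty, add_zero]
    rw [pow_two, Finset.sum_mul_sum]
  · intro c hc c' hc' _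
    obtain ⟨g, r⟩ := hgood c hc
    obtain ⟨g', r'⟩ := hgood c' hc'
    refine comb3 K0 N1 hN1 c c' g g' ?_
    rw [div_le_iff₀ hN1r]
    have h5 : 20000 * (rad c + rad c') ≤ 40948 * N1 := by omega
    have h6 : (20000 : ℝ) * ((rad c + rad c' : ℕ) : ℝ) ≤ 40948 * N1 := by exact_mod_cast h5
    linarith
  · simp only [Finset.univ_eq_empty, Finset.sum_empty, mul_zero, sub_zero, one_mul]
    -- the denominator
    have e1 : ∑ c ∈ Box (K0 + 1) N, F c ^ 2 ≤ A := by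
      refine le_trans (sum_le_sum fun c _ => FT_sq_le G φ N y1 Y1 y2 Y2 c) ?_
      rw [show Box (K0 + 1) N = Fintype.piFinset (fun _ : Fin (K0 + 1) => range N) from rfl, FG_sq]
      exact hA
    -- the numerator
    have e2 : ∀ i : Fin (K0 + 1), (1 - 1 / 2 ^ 16) * Bn ≤ ∑ c ∈ S, UU N F i c ^ 2 := by
      intro i
      have e3 := marg_lower G φ N y1 Y1 y2 Y2 i S (hSU i) (Bn / 2 ^ 17) (Bn / 2 ^ 17)
        (by
          rw [le_div_iff₀ (by positivity), mul_comm]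
          refine le_trans (le_of_eq ?_) h1
          congr 1
          exact sum_congr rfl fun c _ => by rw [UU_FG_eq])
        (by
          rw [le_div_iff₀ (by positivity), mul_comm]
          refine le_trans (le_of_eq ?_) h2
          congr 1
          exact sum_congr rfl fun c _ => by rw [UU_FG_eq])
      have e4 : ∑ c ∈ Box K0 N, UU N (FG G φ N) i c ^ 2 =
          ∑ s ∈ range (N + 1), (AG G K0 s : ℝ) *
            ((∑ t ∈ range (N - s), G (t + 1) * φ (N - s - 1 - t) : ℕ) : ℝ) ^ 2 := by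
        rw [← FG_marg G φ N K0 i]
        rfl
      rw [e4] at e3
      have e5 : Bn - Bn / 2 ^ 17 - Bn / 2 ^ 17 = (1 - 1 / 2 ^ 16) * Bn := by ring
      linarith
    have e6 : ((K0 : ℝ) + 1) * ((1 - 1 / 2 ^ 16) * Bn) ≤ ∑ i : Fin (K0 + 1), ∑ c ∈ S, UU N F i c ^ 2 := by
      have := Finset.sum_le_sum fun (i : Fin (K0 + 1)) (_ : i ∈ univ) => e2 i
      rw [sum_const, card_univ, Fintype.card_fin, nsmul_eq_mul] at this
      push_cast at this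
      exact this
    refine lt_of_lt_of_le ?_ e6
    have hm0 : (0 : ℝ) ≤ 4 * m * N1 := by positivity
    have e7 : 4 * (m : ℝ) * N1 * ∑ c ∈ Box (K0 + 1) N, F c ^ 2 ≤ 4 * m * N1 * A :=
      mul_le_mul_of_nonneg_left e1 hm0
    refine lt_of_le_of_lt e7 ?_
    have e8 : ((K0 : ℝ) + 1) * ((1 - 1 / 2 ^ 16) * Bn) = ((K0 + 1) * (2 ^ 16 - 1) * Bn) / 2 ^ 16 := by ring
    rw [e8, lt_div_iff₀ (by positivity)]
    linarith

/-- the certificate gives `m + 1` primes -/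
theorem crit_cert (hP2 : S_P2L) (w w2 : ℕ) (t ph ht : BT) (L : List (Bool × ℕ))
    (tK m K0 N1 y1 Y1 y2 Y2 cap D1 D2 b1 b2 NB : ℕ) (hw : 0 < w) (hw2 : 0 < w2)
    (hN1 : 0 < N1) (hN : t.len ≤ 2 * N1) (hN0 : 1 ≤ t.len) (hrad : 20000 * (t.len - 1) ≤ 20474 * N1)
    (hcap : 2 * cap ≤ N1) (hy1 : 10000 * y1 ≤ 2 * N1) (hY1 : 6 * N1 ≤ 100 * Y1)
    (hy2 : 100 * y2 ≤ 2 * N1) (hY2 : 406 * N1 ≤ 1000 * Y2) (hz : zf t cap = true)
    (hH : chkH w2 t ph ht = true)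
    (hchk : chk3 w t ph ht L tK (4 * m * N1 * 2 ^ 16) ((K0 + 1) * (2 ^ 16 - 1)) NB (K0 + 1) = true)
    (hc1 : chkW t ph y1 (Y1 + y1) D1 b1 K0 NB (exL L 0) 17 = true)
    (hc2 : chkW t ph y2 (Y2 + y2) D2 b2 K0 NB (exL L 0) 17 = true) :
    ∀ (a b : Fin (K0 + 1) → ℕ), AdmissibleL a b →
    ∀ᶠ X : ℝ in atTop, X / Real.log X ^ CC (K0 + 1) ≤ ((gdM m a b (3 * X)).card : ℝ) := by
  obtain ⟨s1, s2⟩ := chk3_sound w w2 t ph ht L tK _ _ NB K0 hw hw2 hH hchk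
  set An : ℕ := ∑ s ∈ range (t.len + 1), AG t.G (K0 + 1) s * ph.val (t.len - s) ^ 2 with hAn
  set Bn : ℕ := ∑ s ∈ range (t.len + 1), AG t.G K0 s * HV t ph (t.len - s) ^ 2 with hBn
  have hbad : ∀ y Y D b : ℕ, chkW t ph y Y D b K0 NB (exL L 0) 17 = true →
      2 ^ 17 * ∑ c ∈ (Box K0 t.len).filter (fun c => SN y c < Y),
      ((∏ j, (t.G (c j + 1) : ℝ)) * ((∑ i ∈ range (t.len - ∑ j, (c j + 1)),
        t.G (i + 1) * ph.val (t.len - ∑ j, (c j + 1) - 1 - i) : ℕ) : ℝ)) ^ 2 ≤ (Bn : ℝ) := by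
    intro y Y D b hc
    have := chkW_sound t ph y Y D b K0 NB (exL L 0) 17 hc
      (fun c => ((∑ i ∈ range (t.len - ∑ j, (c j + 1)),
        t.G (i + 1) * ph.val (t.len - ∑ j, (c j + 1) - 1 - i) : ℕ) : ℝ)) (fun c => rfl)
    refine le_trans this ?_
    exact_mod_cast s2
  refine critT hP2 m K0 N1 t.len y1 Y1 y2 Y2 cap t.G ph.val hN1 hN hN0 hrad hcap hy1 hY1 hy2 hY2
    ?_ (An : ℝ) (Bn : ℝ) (le_of_eq ?_) (le_of_eq ?_) (hbad y1 _ D1 b1 hc1) (hbad y2 _ D2 b2 hc2) ?_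
  · intro k hk
    unfold BT.G
    exact zf_sound t cap hz (k - 1) (by omega)
  · rw [hAn]
    push_cast
    rfl
  · rw [hBn]
    push_cast
    simp only [HV]
    push_cast
    rfl
  · have h3 : ((4 * m * N1 * 2 ^ 16 * An : ℕ) : ℝ) < (((K0 + 1) * (2 ^ 16 - 1) * Bn : ℕ) : ℝ) := by
      exact_mod_cast s1
    push_cast at h3
    norm_num at h3 ⊢
    linarith

open Pool.Agent.Y876.FF (LH)

theorem lh_of_gdM (m K C : ℕ) (h : ∀ (a b : Fin K → ℕ), AdmissibleL a b →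
    ∀ᶠ X : ℝ in atTop, X / Real.log X ^ C ≤ ((gdM m a b (3 * X)).card : ℝ)) : LH m K C := by
  intro a b ha hne hloc
  filter_upwards [h a b ⟨ha, hne, hloc⟩, eventually_ge_atTop (0 : ℝ)] with X hX hX0
  refine hX.trans (Nat.cast_le.2 ?_)
  unfold gdM
  rw [← Set.ncard_coe_finset]
  apply Set.ncard_le_ncard
  · intro n hn
    obtain ⟨h1, h2⟩ := mem_filter.1 (mem_coe.1 hn)
    rw [mem_Icc] at h1
    refine ⟨h1.1, (Nat.le_floor_iff (by linarith)).1 h1.2, ?_⟩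
    refine h2.trans (le_of_eq ?_)
    rw [← Set.ncard_coe_finset]
    congr 1
    ext i
    simp
  · apply (Set.finite_Iic ⌊3 * X⌋₊).subset
    rintro n ⟨_, h3, _⟩
    exact Nat.le_floor h3

end Pool.Agent.J6H58.D3
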