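import Mathlib
import Pool.Agent.Y826.ZG.Main
import Pool.Agent.Y826.ZG.P2L
import Pool.Agent.J6H58.D3.Main
import Pool.Agent.J6H58.D3.Cert
import Pool.Agent.J6H58.D3.CertH

/-! Three of any `2890` admissible linear forms are simultaneously prime, at least `x / (log x) ^ C` times. -/

set_option autoImplicit false

namespace Pool.Agent.J6H58.D3

open Pool.Agent.Y876.FF (LH)

theorem lh2890 : LH 2 2890 (CC 2890) := by
  refine lh_of_gdM 2 2890 (CC 2890) ?_
  exact crit_cert (Pool.Agent.Y826.ZG.p2l Pool.Agent.Y826.ZG.s_zz) 112 56 DatT.bt DatT.ph DatT.ht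
    DatT.ops 56 2 2889 2097152 419 125833 41943 851445 943718 272 11523 40 30 DatT.NB (by norm_num)
    (by norm_num) (by norm_num) (by rw [len_eq]; norm_num) (by rw [len_eq]; norm_num)
    (by rw [len_eq]; norm_num) (by norm_num) (by norm_num) (by norm_num) (by norm_num) (by norm_num)
    cap_check prof_check cert_check bad1_check bad2_check

end Pool.Agent.J6H58.D3
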