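import Mathlib
import Pool.Agent.Y876.FF.Tr

/-! Exact patterns of primes at shifts, from primes in linear forms (compare `Y826.ZC.Exact`), with counts
`x / (log x) ^ C`, in residue classes. -/

set_option autoImplicit false

open Finset Filter

namespace Pool.Agent.J6H58.D3

open Pool.Agent.Y876.FF (LH exact_forms)
open Pool.Agent.Y876.HS (log_shift)

/-- the integers `n ≤ x`, `n ≡ r (mod q)`, for which the primes among the numbers `n + y`, `|y| ≤ R` or `y ∈ S`,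
are exactly those with `y ∈ P` -/
def PatS (S : Finset ℤ) (q : ℕ) (r : ℤ) (P : Finset ℤ) (R : ℕ) (x : ℝ) : Set ℕ :=
  {n : ℕ | (n : ℝ) ≤ x ∧ (n : ℤ) ≡ r [ZMOD q] ∧
    ∀ y : ℤ, |y| ≤ R ∨ y ∈ S → ((∃ p : ℕ, p.Prime ∧ (p : ℤ) = n + y) ↔ y ∈ P)}

theorem PatS_finite (S : Finset ℤ) (q : ℕ) (r : ℤ) (P : Finset ℤ) (R : ℕ) (x : ℝ) :
    (PatS S q r P R x).Finite := by
  apply (Set.finite_Iic ⌊x⌋₊).subset
  rintro n ⟨hn, -⟩
  exact Nat.le_floor hn

theorem PatS_anti (S : Finset ℤ) (q : ℕ) (r : ℤ) (P : Finset ℤ) {R R' : ℕ} (h : R ≤ R') (x : ℝ) :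
    PatS S q r P R' x ⊆ PatS S q r P R x :=
  fun _ hn => ⟨hn.1, hn.2.1, fun y hy => hn.2.2 y (hy.imp (fun h' => h'.trans (by exact_mod_cast h)) id)⟩

/-- the set-up: the forms `q m + (c + y)`, `|y| ≤ R`, and their relation to the patterns -/
theorem setup {m K C : ℕ} (hyp : LH m K C) (S : Finset ℤ) (hS : K ≤ S.card)
    (hadm : ∀ p : ℕ, p.Prime → ∃ r : ℤ, ∀ s ∈ S, ¬ (p : ℤ) ∣ r + s) (q : ℕ) (r : ℤ) (hq : 0 < q)
    (hr : ∀ s ∈ S, IsCoprime (r + s) (q : ℤ)) (R : ℕ) (hR : ∀ s ∈ S, |s| ≤ R) :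
    (∀ᶠ x : ℝ in atTop, x / Real.log x ^ (C + 4) ≤ (Set.ncard {n : ℕ | (n : ℝ) ≤ x ∧ (n : ℤ) ≡ r [ZMOD q] ∧
      ∃ P : Finset ℤ, P ⊆ S ∧ m + 1 ≤ P.card ∧
        ∀ y : ℤ, |y| ≤ R ∨ y ∈ S → ((∃ p : ℕ, p.Prime ∧ (p : ℤ) = n + y) ↔ y ∈ P)} : ℝ)) ∧
    ∃ P : Finset ℤ, P ⊆ S ∧ m + 1 ≤ P.card ∧ ∃ᶠ x : ℝ in atTop,
      x / Real.log x ^ (C + 4) ≤ ((PatS S q r P R x).ncard : ℝ) := by
  classical
  have hq' : (0 : ℤ) < q := by exact_mod_cast hq
  obtain ⟨c, hcR, hcr⟩ : ∃ c : ℕ, R ≤ c ∧ (c : ℤ) ≡ r [ZMOD q] := by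
    refine ⟨(r % (q : ℤ)).toNat + q * R, ?_, ?_⟩
    · have : 1 * R ≤ q * R := Nat.mul_le_mul_right _ hq
      omega
    · push_cast
      rw [Int.toNat_of_nonneg (Int.emod_nonneg _ hq'.ne')]
      have h1 : ((q : ℤ) * R) ≡ 0 [ZMOD q] := by
        rw [Int.modEq_zero_iff_dvd]
        exact dvd_mul_right _ _
      have h2 := (Int.mod_modEq r (q : ℤ)).add h1
      simpa using h2
  -- the family
  set I : Finset ℤ := Finset.Icc (-(R : ℤ)) R with hI
  have hmemI : ∀ y : ℤ, y ∈ I ↔ |y| ≤ R := by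
    intro y
    rw [hI, Finset.mem_Icc, abs_le]
  set a : I → ℤ := fun _ => q with ha
  set b : I → ℤ := fun y => c + (y : ℤ) with hb
  set S' : Finset I := univ.filter (fun y : I => (y : ℤ) ∈ S) with hS'
  have himg : S'.image (fun y : I => (y : ℤ)) = S := by
    ext y
    rw [mem_image]
    constructor
    · rintro ⟨z, hz, rfl⟩
      exact (mem_filter.1 hz).2
    · intro hy
      exact ⟨⟨y, (hmemI y).2 (hR y hy)⟩, mem_filter.2 ⟨mem_univ _, hy⟩, rfl⟩
  have hcard : S'.card = S.card := by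
    rw [← himg, card_image_of_injective _ Subtype.val_injective]
  obtain ⟨h1, T, hTS, hTm, h2⟩ := exact_forms hyp a b (fun _ => hq')
    (by
      intro i j hij h
      apply hij
      simp only [ha, hb] at h
      have h3 := mul_left_cancel₀ hq'.ne' h
      apply Subtype.ext
      linarith) S' (by rw [hcard]; exact hS)
    (by
      intro p hp
      by_cases hpq : (p : ℤ) ∣ q
      · refine ⟨0, fun y hy hd => ?_⟩
        have hyS := (mem_filter.1 hy).2
        simp only [hb, ha, Nat.cast_zero, mul_zero, zero_add] at hd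
        have h3 : (p : ℤ) ∣ r - c := hpq.trans hcr.dvd
        have h4 : (p : ℤ) ∣ r + y := by
          have := dvd_add h3 hd
          rwa [show r - (c : ℤ) + (c + y) = r + y by ring] at this
        have h5 := (hr _ hyS).isUnit_of_dvd' h4 hpq
        rw [Int.isUnit_iff] at h5
        have h6 := hp.two_le
        omega
      · obtain ⟨r', hr'⟩ := hadm p hp
        have h3 : IsCoprime (q : ℤ) (p : ℤ) := by
          rw [Nat.isCoprime_iff_coprime, Nat.coprime_comm, hp.coprime_iff_not_dvd]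
          intro h
          exact hpq (by exact_mod_cast h)
        obtain ⟨u, v, huv⟩ := h3
        have hp0 : (p : ℤ) ≠ 0 := by exact_mod_cast hp.ne_zero
        refine ⟨((u * (r' - c)) % p).toNat, fun y hy hd => hr' y (mem_filter.1 hy).2 ?_⟩
        have h4 : (((u * (r' - c)) % p).toNat : ℤ) = (u * (r' - c)) % p :=
          Int.toNat_of_nonneg (Int.emod_nonneg _ hp0)
        simp only [ha, hb] at hd
        rw [h4, Int.emod_def] at hd
        have h5 : r' + (y : ℤ) = (q : ℤ) * (u * (r' - c) - p * (u * (r' - c) / p)) + (c + y) +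
            p * (v * (r' - c) + q * (u * (r' - c) / p)) := by
          linear_combination (-(r' - (c : ℤ))) * huv
        rw [h5]
        exact dvd_add hd (dvd_mul_right _ _))
  -- translation
  have hval : ∀ (n : ℕ) (y : I), (a y * (n : ℤ) + b y).natAbs.Prime ↔
      ∃ p : ℕ, p.Prime ∧ (p : ℤ) = ((q * n + c : ℕ) : ℤ) + (y : ℤ) := by
    intro n y
    have h3 : a y * (n : ℤ) + b y = ((q * n + c : ℕ) : ℤ) + (y : ℤ) := by
      simp only [ha, hb]
      push_cast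
      ring
    have h4 : 0 ≤ ((q * n + c : ℕ) : ℤ) + (y : ℤ) := by
      have h5 := (abs_le.1 ((hmemI y).1 y.2)).1
      have h6 : (R : ℤ) ≤ c := by exact_mod_cast hcR
      have h7 : (0 : ℤ) ≤ ((q * n : ℕ) : ℤ) := Nat.cast_nonneg _
      push_cast at h7 ⊢
      linarith
    rw [h3]
    constructor
    · intro h5
      exact ⟨_, h5, Int.natAbs_of_nonneg h4⟩
    · rintro ⟨p, hp, hp2⟩
      rw [← hp2, Int.natAbs_natCast]
      exact hp
  have hmod : ∀ n : ℕ, ((q * n + c : ℕ) : ℤ) ≡ r [ZMOD q] := by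
    intro n
    have h3 : ((q : ℤ) * n) ≡ 0 [ZMOD q] := by
      rw [Int.modEq_zero_iff_dvd]
      exact dvd_mul_right _ _
    push_cast
    simpa using h3.add hcr
  have hinj : ∀ s : Set ℕ, Set.InjOn (fun n : ℕ => q * n + c) s := by
    intro s n _ n' _ h
    have h4 : q * n + c = q * n' + c := h
    exact Nat.eq_of_mul_eq_mul_left hq (by omega)
  have hyR : ∀ y : ℤ, |y| ≤ R ∨ y ∈ S → y ∈ I := fun y hy => (hmemI y).2 (hy.elim id (hR y))
  have hcast : ∀ (x : ℝ) (n : ℕ), (n : ℝ) ≤ (x - c) / q → ((q * n + c : ℕ) : ℝ) ≤ x := by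
    intro x n hn
    have hqr : (0 : ℝ) < q := by exact_mod_cast hq
    rw [le_div_iff₀ hqr] at hn
    push_cast
    linarith
  have hqr : (0 : ℝ) < q := by exact_mod_cast hq
  have hq1 : (1 : ℝ) ≤ q := by exact_mod_cast hq
  have ht : Tendsto (fun x : ℝ => (x - c) / q) atTop atTop :=
    (tendsto_atTop_add_const_right _ _ tendsto_id).atTop_div_const hqr
  have hshift := log_shift (c : ℝ) (q : ℝ) (Nat.cast_nonneg _) hq1 (C + 3)
  constructor
  · filter_upwards [ht.eventually h1, hshift] with x hx1 hx2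
    refine hx2.trans (hx1.trans (Nat.cast_le.2 ?_))
    refine Set.ncard_le_ncard_of_injOn (fun n : ℕ => q * n + c) ?_ (hinj _) ?_
    · rintro n ⟨hn1, hn2, hn3⟩
      refine ⟨hcast x n hn1, hmod n, ?_⟩
      refine ⟨S.filter (fun y => ∃ p : ℕ, p.Prime ∧ (p : ℤ) = ((q * n + c : ℕ) : ℤ) + y),
        filter_subset _ _, ?_, fun y hy => ?_⟩
      · refine hn2.trans ?_
        rw [← Set.ncard_coe_finset]
        refine Set.ncard_le_ncard_of_injOn (fun i : I => (i : ℤ)) ?_ (fun i _ j _ h => Subtype.ext h)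
          (Finset.finite_toSet _)
        rintro i ⟨hi1, hi2⟩
        exact mem_coe.2 (mem_filter.2 ⟨(mem_filter.1 hi1).2, (hval n i).1 hi2⟩)
      · rw [mem_filter]
        constructor
        · intro hp
          refine ⟨?_, hp⟩
          by_contra hyS
          have hyI := hyR y hy
          have h5 := hn3 ⟨y, hyI⟩ (fun h => hyS (mem_filter.1 h).2)
          exact h5 ((hval n ⟨y, hyI⟩).2 hp)
        · exact fun h => h.2
    · apply (Set.finite_Iic ⌊x⌋₊).subset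
      rintro n ⟨hn, -⟩
      exact Nat.le_floor hn
  · refine ⟨T.image (fun y : I => (y : ℤ)), ?_, ?_, ?_⟩
    · rw [← himg]
      exact image_subset_image hTS
    · rw [card_image_of_injective _ Subtype.val_injective]
      exact hTm
    · -- frequently in `x`
      have hfr : ∃ᶠ x : ℝ in atTop, (x - c) / q / Real.log ((x - c) / q) ^ (C + 3) ≤
          (Set.ncard {n : ℕ | (n : ℝ) ≤ (x - c) / q ∧
            ∀ i, (a i * (n : ℤ) + b i).natAbs.Prime ↔ i ∈ T} : ℝ) := by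
        have ht2 : Tendsto (fun x : ℝ => q * x + c) atTop atTop :=
          tendsto_atTop_add_const_right _ _ (tendsto_id.const_mul_atTop hqr)
        refine ht2.frequently (h2.mono fun x hx => ?_)
        have e : ((q : ℝ) * x + c - c) / q = x := by field_simp; ring
        rw [e]
        exact hx
      refine (hfr.and_eventually hshift).mono ?_
      rintro x ⟨hx1, hx2⟩
      refine hx2.trans (hx1.trans (Nat.cast_le.2 ?_))
      refine Set.ncard_le_ncard_of_injOn (fun n : ℕ => q * n + c) ?_ (hinj _) (PatS_finite _ _ _ _ _ _)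
      rintro n ⟨hn1, hn2⟩
      refine ⟨hcast x n hn1, hmod n, fun y hy => ?_⟩
      have hyI := hyR y hy
      have h5 := hn2 ⟨y, hyI⟩
      rw [hval n ⟨y, hyI⟩] at h5
      rw [h5, mem_image]
      constructor
      · intro h6
        exact ⟨_, h6, rfl⟩
      · rintro ⟨z, hz, hzy⟩
        have : z = ⟨y, hyI⟩ := Subtype.ext hzy
        rwa [this] at hz

/-- exact patterns with at least `m + 1` primes in every admissible set of at least `K` shifts -/
theorem exact_shifts {m K C : ℕ} (hyp : LH m K C) (S : Finset ℤ) (hS : K ≤ S.card)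
    (hadm : ∀ p : ℕ, p.Prime → ∃ r : ℤ, ∀ s ∈ S, ¬ (p : ℤ) ∣ r + s) (q : ℕ) (r : ℤ) (hq : 0 < q)
    (hr : ∀ s ∈ S, IsCoprime (r + s) (q : ℤ)) :
    (∀ R : ℕ, ∀ᶠ x : ℝ in atTop, x / Real.log x ^ (C + 4) ≤
      (Set.ncard {n : ℕ | (n : ℝ) ≤ x ∧ (n : ℤ) ≡ r [ZMOD q] ∧
      ∃ P : Finset ℤ, P ⊆ S ∧ m + 1 ≤ P.card ∧
        ∀ y : ℤ, |y| ≤ R ∨ y ∈ S → ((∃ p : ℕ, p.Prime ∧ (p : ℤ) = n + y) ↔ y ∈ P)} : ℝ)) ∧
    ∃ P : Finset ℤ, P ⊆ S ∧ m + 1 ≤ P.card ∧ ∀ R : ℕ, ∃ᶠ x : ℝ in atTop,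
      x / Real.log x ^ (C + 4) ≤ (Set.ncard {n : ℕ | (n : ℝ) ≤ x ∧ (n : ℤ) ≡ r [ZMOD q] ∧
        ∀ y : ℤ, |y| ≤ R ∨ y ∈ S → ((∃ p : ℕ, p.Prime ∧ (p : ℤ) = n + y) ↔ y ∈ P)} : ℝ) := by
  classical
  obtain ⟨R0, hR0⟩ : ∃ R0 : ℕ, ∀ s ∈ S, |s| ≤ R0 := by
    refine ⟨S.sup (fun s => s.natAbs), fun s hs => ?_⟩
    rw [Int.abs_eq_natAbs]
    exact_mod_cast Finset.le_sup (f := fun s : ℤ => s.natAbs) hs
  have hR' : ∀ R : ℕ, ∀ s ∈ S, |s| ≤ ((R + R0 : ℕ) : ℤ) := by
    intro R s hs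
    refine (hR0 s hs).trans ?_
    push_cast
    have : (0 : ℤ) ≤ R := Nat.cast_nonneg _
    linarith
  constructor
  · intro R
    filter_upwards [(setup hyp S hS hadm q r hq hr (R + R0) (hR' R)).1] with x hx
    refine hx.trans (Nat.cast_le.2 ?_)
    apply Set.ncard_le_ncard
    · rintro n ⟨hn1, hn2, P, hP1, hP2, hP3⟩
      refine ⟨hn1, hn2, P, hP1, hP2, fun y hy => hP3 y (hy.imp (fun h => h.trans ?_) id)⟩
      push_cast
      have : (0 : ℤ) ≤ R0 := Nat.cast_nonneg _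
      linarith
    · apply (Set.finite_Iic ⌊x⌋₊).subset
      rintro n ⟨hn, -⟩
      exact Nat.le_floor hn
  · by_contra hcon
    push Not at hcon
    have h1 : ∀ P : Finset ℤ, ∃ R : ℕ, P ⊆ S → m + 1 ≤ P.card →
        ∀ᶠ x : ℝ in atTop, ((PatS S q r P R x).ncard : ℝ) < x / Real.log x ^ (C + 4) := by
      intro P
      by_cases h : P ⊆ S ∧ m + 1 ≤ P.card
      · obtain ⟨R, h2⟩ := hcon P h.1 h.2
        refine ⟨R, fun _ _ => ?_⟩
        filter_upwards [h2] with x hx using hx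
      · exact ⟨0, fun h2 h3 => absurd ⟨h2, h3⟩ h⟩
    choose Rf hf using h1
    obtain ⟨R, hR⟩ : ∃ R : ℕ, ∀ P ∈ S.powerset, Rf P ≤ R :=
      ⟨S.powerset.sup Rf, fun P hP => Finset.le_sup (f := Rf) hP⟩
    obtain ⟨-, P, hP1, hP2, hP3⟩ := setup hyp S hS hadm q r hq hr (R + R0) (hR' R)
    have h4 := hf P hP1 hP2
    obtain ⟨x, hx1, hx2⟩ := (hP3.and_eventually h4).exists
    have h5 : (PatS S q r P (R + R0) x).ncard ≤ (PatS S q r P (Rf P) x).ncard :=
      Set.ncard_le_ncard (PatS_anti S q r P ((hR P (mem_powerset.2 hP1)).trans (Nat.le_add_right _ _)) x)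
        (PatS_finite _ _ _ _ _ _)
    have h6 : ((PatS S q r P (R + R0) x).ncard : ℝ) ≤ ((PatS S q r P (Rf P) x).ncard : ℝ) := by
      exact_mod_cast h5
    linarith

end Pool.Agent.J6H58.D3
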